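import Pool.Agent.Helper42.LK.Defs

namespace Pool.Agent.Helper42.LK

open Pool.Agent.Helper42.LS

open WeierstrassCurve WeierstrassCurve.Affine

variable {K : Type} [Field K] [CharZero K] [DecidableEq K]

omit [CharZero K] in
lemma kgl_add {A B : K} {x1 y1 x2 y2 x3 y3 : K} {h1 : (ECK A B).toAffine.Nonsingular x1 y1}
    {h2 : (ECK A B).toAffine.Nonsingular x2 y2} {h3 : (ECK A B).toAffine.Nonsingular x3 y3}
    (hx : x1 ≠ x2)
    (h : (Point.some x1 y1 h1 : (ECK A B).toAffine.Point) + Point.some x2 y2 h2 =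
      Point.some x3 y3 h3) :
    x3 = ((y1 - y2) / (x1 - x2)) ^ 2 - x1 - x2 ∧
      y3 = -((y1 - y2) / (x1 - x2) * (x3 - x1) + y1) := by
  rw [Point.add_of_X_ne hx] at h
  have h' := Point.some.inj h
  obtain ⟨e1, e2⟩ := h'
  rw [slope_of_X_ne hx] at e1 e2
  simp only [addX, addY, negAddY, negY, ECK] at e1 e2
  constructor
  · rw [← e1]; ring
  · rw [← e2, ← e1]; ring

lemma kgl_dbl {A B : K} {x1 y1 x3 y3 : K} {h1 : (ECK A B).toAffine.Nonsingular x1 y1}
    {h3 : (ECK A B).toAffine.Nonsingular x3 y3}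
    (h : (Point.some x1 y1 h1 : (ECK A B).toAffine.Point) + Point.some x1 y1 h1 =
      Point.some x3 y3 h3) :
    y1 ≠ 0 ∧ x3 = ((3 * x1 ^ 2 + 2 * 0 * x1 + A) / (2 * y1)) ^ 2 - 0 - 2 * x1 ∧
      y3 = -((3 * x1 ^ 2 + 2 * 0 * x1 + A) / (2 * y1) * (x3 - x1) + y1) := by
  have hy0 : y1 ≠ 0 := by
    intro h0
    have hy : y1 = (ECK A B).toAffine.negY x1 y1 := by
      simp [negY, ECK, h0]
    rw [Point.add_self_of_Y_eq hy] at h
    exact Point.some_ne_zero h3 h.symm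
  have hy : y1 ≠ (ECK A B).toAffine.negY x1 y1 := by
    intro h0
    simp only [negY, ECK] at h0
    apply hy0
    have h2 : (2 : K) * y1 = 0 := by linear_combination h0
    exact (mul_eq_zero.1 h2).resolve_left two_ne_zero
  rw [Point.add_self_of_Y_ne hy] at h
  have h' := Point.some.inj h
  obtain ⟨e1, e2⟩ := h'
  rw [slope_of_Y_ne rfl hy] at e1 e2
  simp only [addX, addY, negAddY, negY, ECK] at e1 e2
  have hs : (3 * x1 ^ 2 + 2 * 0 * x1 + A - 0 * y1) / (y1 - (-y1 - 0 * x1 - 0)) =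
      (3 * x1 ^ 2 + 2 * 0 * x1 + A) / (2 * y1) := by
    have hd : y1 - (-y1 - 0 * x1 - 0) = 2 * y1 := by ring
    have hn : (3 * x1 ^ 2 + 2 * 0 * x1 + A - 0 * y1) =
      (3 * x1 ^ 2 + 2 * 0 * x1 + A) := by ring
    rw [hd, hn]
  rw [hs] at e1 e2
  refine ⟨hy0, ?_, ?_⟩
  · rw [← e1]; ring
  · rw [← e2, ← e1]; ring

omit [CharZero K] [DecidableEq K] in
lemma kgl_neg {A B : K} {x1 y1 : K} (h1 : (ECK A B).toAffine.Nonsingular x1 y1) :
    ∃ h2, -(Point.some x1 y1 h1 : (ECK A B).toAffine.Point) = Point.some x1 (-y1) h2 := by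
  have e : (ECK A B).toAffine.negY x1 y1 = -y1 := by simp [negY, ECK]
  rw [Point.neg_some h1]
  have : ∀ z : K, ∀ hz : (ECK A B).toAffine.Nonsingular x1 z, z = -y1 →
      ∃ h2, (Point.some x1 z hz : (ECK A B).toAffine.Point) = Point.some x1 (-y1) h2 := by
    intro z hz hzy
    subst hzy
    exact ⟨hz, rfl⟩
  exact this _ _ e

omit [CharZero K] [DecidableEq K] in
theorem st_KGL : ST_KGL := by
  intro K _ _ _ A B P hP
  have hex : ∀ k : ℕ, ∃ xy : K × K, 1 ≤ k → ∃ h, k • P =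
      (Point.some xy.1 xy.2 h : (ECK A B).toAffine.Point) := by
    intro k
    by_cases hk : 1 ≤ k
    · have hne := hP k hk
      rcases hkP : k • P with _ | ⟨x, y, h⟩
      · exact absurd hkP hne
      · exact ⟨(x, y), fun _ => ⟨h, rfl⟩⟩
    · exact ⟨(0, 0), fun h => absurd h hk⟩
  choose xy hxy using hex
  have hmain : ∀ k : ℕ, 1 ≤ k → ∃ h, k • P =
      (Point.some (xy k).1 (xy k).2 h : (ECK A B).toAffine.Point) := hxy
  have hxne : ∀ k l : ℕ, 1 ≤ l → l < k → (xy k).1 ≠ (xy l).1 := by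
    intro k l hl hlk hx
    obtain ⟨h1, e1⟩ := hmain k (by omega)
    obtain ⟨h2, e2⟩ := hmain l hl
    rcases (Point.X_eq_iff (h₁ := h1) (h₂ := h2)).mp hx with h | h
    · rw [← e1, ← e2] at h
      apply hP (k - l) (by omega)
      have : k • P = (k - l) • P + l • P := by rw [← add_nsmul]; congr 1; omega
      rw [this] at h
      exact add_eq_right.mp h
    · rw [← e1, ← e2] at h
      apply hP (k + l) (by omega)
      rw [add_nsmul, h]
      exact neg_add_cancel _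
  refine ⟨fun k => (xy k).1, fun k => (xy k).2, ?_, fun k hk => hmain k hk⟩
  have hdbl : ∀ k : ℕ, 1 ≤ k → (xy k).2 ≠ 0 ∧
      (xy (2 * k)).1 = ((3 * (xy k).1 ^ 2 + 2 * 0 * (xy k).1 + A) / (2 * (xy k).2)) ^ 2
        - 0 - 2 * (xy k).1 ∧
      (xy (2 * k)).2 = -((3 * (xy k).1 ^ 2 + 2 * 0 * (xy k).1 + A) / (2 * (xy k).2) *
        ((xy (2 * k)).1 - (xy k).1) + (xy k).2) := by
    intro k hk
    obtain ⟨h1, e1⟩ := hmain k hk
    obtain ⟨h2, e2⟩ := hmain (2 * k) (by omega)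
    have e3 : (2 * k) • P = k • P + k • P := by rw [two_mul, add_nsmul]
    rw [e3, e1] at e2
    exact kgl_dbl e2
  have hadd : ∀ k l : ℕ, 1 ≤ l → l < k →
      (xy (k + l)).1 = (((xy k).2 - (xy l).2) / ((xy k).1 - (xy l).1)) ^ 2 - (xy k).1 - (xy l).1 ∧
      (xy (k + l)).2 = -(((xy k).2 - (xy l).2) / ((xy k).1 - (xy l).1) *
        ((xy (k + l)).1 - (xy k).1) + (xy k).2) := by
    intro k l hl hlk
    obtain ⟨h1, e1⟩ := hmain k (by omega)
    obtain ⟨h2, e2⟩ := hmain l hl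
    obtain ⟨h3, e3⟩ := hmain (k + l) (by omega)
    rw [add_nsmul, e1, e2] at e3
    exact kgl_add (hxne k l hl hlk) e3
  have hsub : ∀ k l : ℕ, 1 ≤ l → l < k →
      (xy (k - l)).1 = (((xy k).2 + (xy l).2) / ((xy k).1 - (xy l).1)) ^ 2 - (xy k).1 - (xy l).1 ∧
      (xy (k - l)).2 = -(((xy k).2 + (xy l).2) / ((xy k).1 - (xy l).1) *
        ((xy (k - l)).1 - (xy k).1) + (xy k).2) := by
    intro k l hl hlk
    obtain ⟨h1, e1⟩ := hmain k (by omega)
    obtain ⟨h2, e2⟩ := hmain l hl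
    obtain ⟨h3, e3⟩ := hmain (k - l) (by omega)
    obtain ⟨h4, e4⟩ := kgl_neg h2
    have h5 : (k - l) • P = k • P + -(l • P) := by
      have : k • P = (k - l) • P + l • P := by rw [← add_nsmul]; congr 1; omega
      rw [this]
      exact (add_neg_cancel_right _ _).symm
    rw [h5, e1, e2, e4] at e3
    have := kgl_add (hxne k l hl hlk) e3
    rw [sub_neg_eq_add] at this
    exact this
  refine ⟨?_, ?_, ?_, ?_, ?_, ?_, ?_, ?_, ?_⟩
  · intro k hk
    obtain ⟨h1, e1⟩ := hmain k hk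
    have := ((ECK A B).toAffine.equation_iff _ _).mp h1.1
    simp only [ECK] at this
    linear_combination this
  · exact fun k hk => (hdbl k hk).1
  · exact hxne
  · exact fun k hk => (hdbl k hk).2.1
  · exact fun k hk => (hdbl k hk).2.2
  · intro k l hl hlk
    rw [(hadd k l hl hlk).1]; ring
  · exact fun k l hl hlk => (hadd k l hl hlk).2
  · intro k l hl hlk
    rw [(hsub k l hl hlk).1]; ring
  · exact fun k l hl hlk => (hsub k l hl hlk).2

end Pool.Agent.Helper42.LK
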