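import Pool.Agent.Helper42.LK.Defs

open Filter Topology

namespace Pool.Agent.Helper42.LK

open Pool.Agent.Helper42.LS

variable {F : Type} [Field F] {μ : DV F}

/-- `v a ≥ n` -/
def kadV (μ : DV F) (n : ℤ) (a : F) : Prop := μ.nr a ≤ μ.q ^ (-n)

/-- `v a = n` -/
def kadE (μ : DV F) (n : ℤ) (a : F) : Prop := μ.nr a = μ.q ^ (-n)

theorem kadV.mono {m n : ℤ} {a : F} (h : kadV μ n a) (hmn : m ≤ n) : kadV μ m a := by
  unfold kadV at *
  refine h.trans (zpow_le_zpow_right₀ μ.one_lt_q.le (by omega))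

theorem kadV_zero (n : ℤ) : kadV μ n 0 := by
  unfold kadV
  rw [μ.nr_zero]
  exact (zpow_pos μ.q_pos _).le

theorem kadV.add {n : ℤ} {a b : F} (ha : kadV μ n a) (hb : kadV μ n b) : kadV μ n (a + b) := by
  unfold kadV at *
  exact (μ.nr_add_le a b).trans (max_le ha hb)

theorem kadV.neg {n : ℤ} {a : F} (ha : kadV μ n a) : kadV μ n (-a) := by
  unfold kadV at *
  rwa [μ.nr_neg]

theorem kadV.sub {n : ℤ} {a b : F} (ha : kadV μ n a) (hb : kadV μ n b) : kadV μ n (a - b) := by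
  rw [sub_eq_add_neg]; exact ha.add hb.neg

theorem kadV.mul {m n : ℤ} {a b : F} (ha : kadV μ m a) (hb : kadV μ n b) {k : ℤ} (hk : k ≤ m + n) :
    kadV μ k (a * b) := by
  refine kadV.mono ?_ hk
  unfold kadV at *
  rw [μ.nr_mul, neg_add, zpow_add₀ μ.q_pos.ne']
  exact mul_le_mul ha hb (μ.nr_nonneg _) (zpow_pos μ.q_pos _).le

theorem kadE.mul {m n : ℤ} {a b : F} (ha : kadE μ m a) (hb : kadE μ n b) {k : ℤ} (hk : k = m + n) :
    kadE μ k (a * b) := by
  subst hk
  unfold kadE at *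
  rw [μ.nr_mul, neg_add, zpow_add₀ μ.q_pos.ne', ha, hb]

theorem kadE.V {n : ℤ} {a : F} (h : kadE μ n a) {m : ℤ} (hm : m ≤ n) : kadV μ m a :=
  kadV.mono (le_of_eq h) hm

theorem kadE.not_V {n : ℤ} {a : F} (h : kadE μ n a) {m : ℤ} (hm : n < m) : ¬ kadV μ m a := by
  intro h'
  unfold kadV kadE at *
  rw [h] at h'
  have := zpow_lt_zpow_right₀ μ.one_lt_q (show -m < -n by omega)
  exact absurd h' (not_le.2 this)

theorem kadE.ne {n : ℤ} {a : F} (h : kadE μ n a) : a ≠ 0 := by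
  rintro rfl
  exact h.not_V (m := n + 1) (by omega) (kadV_zero _)

theorem kad_exists {a : F} (ha : a ≠ 0) : ∃ n : ℤ, kadE μ n a := ⟨_, μ.nr_of_ne ha⟩

theorem kadE.unique {m n : ℤ} {a : F} (h : kadE μ n a) (h' : kadE μ m a) : m = n := by
  rcases lt_trichotomy m n with hlt | rfl | hlt
  · exact absurd (h.V le_rfl) (h'.not_V hlt)
  · rfl
  · exact absurd (h'.V le_rfl) (h.not_V hlt)

theorem kad_V_or {a : F} (n : ℤ) : kadV μ n a ∨ ∃ m : ℤ, m < n ∧ kadE μ m a := by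
  by_cases ha : a = 0
  · subst ha; exact Or.inl (kadV_zero n)
  · obtain ⟨m, hm⟩ := kad_exists (μ := μ) ha
    rcases lt_or_ge m n with h | h
    · exact Or.inr ⟨m, h, hm⟩
    · exact Or.inl (hm.V h)

theorem kad_E_of {a : F} {n : ℤ} (h : kadV μ n a) (h' : ¬ kadV μ (n + 1) a) : kadE μ n a := by
  rcases kad_V_or (μ := μ) (a := a) (n + 1) with h1 | ⟨m, hm, hE⟩
  · exact absurd h1 h'
  · have : m = n := by
      by_contra hne
      exact hE.not_V (by omega : m < n) h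
    rwa [this] at hE

theorem kadE.add {n : ℤ} {a b : F} (ha : kadE μ n a) (hb : kadV μ (n + 1) b) : kadE μ n (a + b) := by
  refine kad_E_of ((ha.V le_rfl).add (hb.mono (by omega))) fun h => ?_
  exact ha.not_V (by omega : n < n + 1) (by simpa using h.sub hb)

theorem kadE.add' {n : ℤ} {a b : F} (ha : kadV μ (n + 1) a) (hb : kadE μ n b) : kadE μ n (a + b) := by
  rw [add_comm]; exact hb.add ha

theorem kadE.neg {n : ℤ} {a : F} (ha : kadE μ n a) : kadE μ n (-a) := by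
  unfold kadE at *; rwa [μ.nr_neg]

theorem kadE.sub {n : ℤ} {a b : F} (ha : kadE μ n a) (hb : kadV μ (n + 1) b) : kadE μ n (a - b) := by
  rw [sub_eq_add_neg]; exact ha.add hb.neg

theorem kadV_int (z : ℤ) : kadV μ 0 (z : F) := by
  unfold kadV; simpa using μ.nr_intCast z

theorem kad_ne [CharZero F] (hp5 : μ.ord (2 : F) = 0 ∧ μ.ord (3 : F) = 0) :
    kadE μ 0 (2 : F) ∧ kadE μ 0 (3 : F) :=
  ⟨(μ.nr_eq_zpow_iff two_ne_zero 0).2 hp5.1, (μ.nr_eq_zpow_iff three_ne_zero 0).2 hp5.2⟩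

theorem kadE.inv {n : ℤ} {a : F} (h : kadE μ n a) : kadE μ (-n) a⁻¹ := by
  unfold kadE at *
  rw [μ.nr_inv, h, zpow_neg, zpow_neg, zpow_neg]

/-- not in the maximal ideal -/
theorem kad_nr {a : F} (h : ¬ kadV μ 1 a) : 1 ≤ μ.nr a := by
  rcases kad_V_or (μ := μ) (a := a) 1 with h1 | ⟨m, hm, hE⟩
  · exact absurd h1 h
  · rw [hE]
    exact one_le_zpow₀ μ.one_lt_q.le (by omega)

/-- squares have even valuation -/
theorem kad_sq {a : F} {n : ℤ} (h : kadE μ n (a ^ 2)) : ∃ m : ℤ, kadE μ m a ∧ n = 2 * m := by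
  have ha : a ≠ 0 := by
    rintro rfl
    exact h.ne (by simp)
  obtain ⟨m, hm⟩ := kad_exists (μ := μ) ha
  refine ⟨m, hm, ?_⟩
  have := hm.mul hm (k := m + m) rfl
  rw [← sq] at this
  have := this.unique h
  omega

theorem kadV.of_mul {k n : ℤ} {a b : F} (h : kadV μ k (a * b)) (hb : kadE μ n b) {m : ℤ}
    (hm : m + n ≤ k) : kadV μ m a := by
  rcases kad_V_or (μ := μ) (a := a) m with h1 | ⟨i, hi, hE⟩
  · exact h1
  · exact absurd (h.mono hm) ((hE.mul hb rfl).not_V (by omega))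

theorem kad_two {a b : F} (h1 : kadV μ 1 (a + b)) (h2 : kadV μ 1 (a * b)) : kadV μ 1 a := by
  rcases kad_V_or (μ := μ) (a := a) 1 with h | ⟨m, hm, hE⟩
  · exact h
  · have hb : kadE μ m b := by
      have : kadE μ m (-a + (a + b)) := hE.neg.add (h1.mono (by omega))
      simpa using this
    exact absurd h2 ((hE.mul hb rfl).not_V (by omega))

theorem kad_SP {A B : F} {x y : ℕ → F} (h : GSeq (0 : F) A B x y) {k l : ℕ} (hl : 1 ≤ l)
    (hk : l < k) :
    (x (k + l) + x (k - l)) * (x k - x l) ^ 2 = 2 * ((x k + x l) * (A + x k * x l) + 2 * B) ∧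
    x (k + l) * x (k - l) * (x k - x l) ^ 2 = (x k * x l - A) ^ 2 - 4 * B * (x k + x l) := by
  have hD : x k - x l ≠ 0 := sub_ne_zero.2 (h.xne k l hl hk)
  have h1 := h.curve k (by omega)
  have h2 := h.curve l hl
  have ha : x (k + l) * (x k - x l) ^ 2 = (y k - y l) ^ 2 - (x k + x l) * (x k - x l) ^ 2 := by
    rw [h.addx k l hl hk]; field_simp; ring
  have hs : x (k - l) * (x k - x l) ^ 2 = (y k + y l) ^ 2 - (x k + x l) * (x k - x l) ^ 2 := by
    rw [h.subx k l hl hk]; field_simp; ring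
  constructor
  · linear_combination ha + hs + 2 * h1 + 2 * h2
  · have hD2 : (x k - x l) ^ 2 ≠ 0 := pow_ne_zero _ hD
    apply mul_right_cancel₀ hD2
    have : x (k + l) * x (k - l) * (x k - x l) ^ 2 * (x k - x l) ^ 2 =
        (x (k + l) * (x k - x l) ^ 2) * (x (k - l) * (x k - x l) ^ 2) := by ring
    rw [this, ha, hs]
    have e : ((y k - y l) ^ 2 - (x k + x l) * (x k - x l) ^ 2) *
        ((y k + y l) ^ 2 - (x k + x l) * (x k - x l) ^ 2) =
        (y k ^ 2 - y l ^ 2) ^ 2 - 2 * (x k + x l) * (x k - x l) ^ 2 * (y k ^ 2 + y l ^ 2)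
          + (x k + x l) ^ 2 * (x k - x l) ^ 4 := by ring
    rw [e, h1, h2]
    ring

theorem kad_closed {A B X1 X2 X3 X4 : F} (hA : kadV μ 1 A) (hB : kadV μ 1 B)
    (e1 : (X3 + X4) * (X1 - X2) ^ 2 = 2 * ((X1 + X2) * (A + X1 * X2) + 2 * B))
    (e2 : X3 * X4 * (X1 - X2) ^ 2 = (X1 * X2 - A) ^ 2 - 4 * B * (X1 + X2))
    (h1 : ¬ kadV μ 1 X1) (h2 : kadV μ 1 X2) : kadV μ 1 X3 ∧ kadV μ 1 X4 := by
  rcases kad_V_or (μ := μ) (a := X1) 1 with h | ⟨a, ha, hE⟩
  · exact absurd h h1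
  have hd : kadE μ (2 * a) ((X1 - X2) ^ 2) := by
    have : kadE μ a (X1 - X2) := hE.sub (h2.mono (by omega))
    rw [sq]; exact this.mul this (by ring)
  have hi2 : kadV μ 0 (2 : F) := by simpa using kadV_int (μ := μ) 2
  have hi4 : kadV μ 0 (4 : F) := by simpa using kadV_int (μ := μ) 4
  have hX1 : kadV μ a X1 := hE.V le_rfl
  have hs : kadV μ a (X1 + X2) := hX1.add (h2.mono (by omega))
  have hm : kadV μ (a + 1) (X1 * X2) := hX1.mul h2 (by omega)
  have hAm : kadV μ (a + 1) (A + X1 * X2) := (hA.mono (by omega)).add hm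
  have hR1 : kadV μ (2 * a + 1) (2 * ((X1 + X2) * (A + X1 * X2) + 2 * B)) := by
    refine hi2.mul (k := 2 * a + 1) (n := 2 * a + 1) ?_ (by omega)
    exact (hs.mul hAm (by omega)).add ((hi2.mul hB (by omega)))
  have hR2 : kadV μ (2 * a + 1) ((X1 * X2 - A) ^ 2 - 4 * B * (X1 + X2)) := by
    refine kadV.sub ?_ ?_
    · rw [sq]
      have : kadV μ (a + 1) (X1 * X2 - A) := hm.sub (hA.mono (by omega))
      exact this.mul this (by omega)
    · exact (hi4.mul hB (k := 1) (by omega)).mul hs (by omega)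
  rw [← e1] at hR1
  rw [← e2] at hR2
  have hS : kadV μ 1 (X3 + X4) := hR1.of_mul hd (by omega)
  have hP : kadV μ 1 (X3 * X4) := hR2.of_mul hd (by omega)
  exact ⟨kad_two hS hP, kad_two (by rwa [add_comm]) (by rwa [mul_comm])⟩

theorem kad_dbl [CharZero F] {A B : F} {x y : ℕ → F} (h : GSeq (0 : F) A B x y) {k : ℕ} (hk : 1 ≤ k) :
    x (2 * k) * (4 * cu A B (x k)) = th A B (x k) ∧ y k ^ 2 = cu A B (x k) := by
  have hc := h.curve k hk
  have hy := h.yne k hk
  have h2 : y k ^ 2 = cu A B (x k) := by rw [hc]; unfold cu; ring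
  refine ⟨?_, h2⟩
  rw [← h2, h.dblx k hk]
  have : (((3 * x k ^ 2 + 2 * 0 * x k + A) / (2 * y k)) ^ 2 - 0 - 2 * x k) * (4 * y k ^ 2) =
      (3 * x k ^ 2 + A) ^ 2 - 8 * x k * y k ^ 2 := by
    field_simp; ring
  rw [this, h2]
  unfold th cu
  ring

theorem kad_closed_dbl {A B X X' : F} (hA : kadV μ 1 A) (hB : kadV μ 1 B)
    (e : X' * (4 * cu A B X) = th A B X) (h1 : ¬ kadV μ 1 X) : ¬ kadV μ 1 X' := by
  rcases kad_V_or (μ := μ) (a := X) 1 with h | ⟨a, ha, hE⟩
  · exact absurd h h1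
  intro hX'
  have hi2 : kadV μ 0 (2 : F) := by simpa using kadV_int (μ := μ) 2
  have hi4 : kadV μ 0 (4 : F) := by simpa using kadV_int (μ := μ) 4
  have hi8 : kadV μ 0 (8 : F) := by simpa using kadV_int (μ := μ) 8
  have hX : kadV μ a X := hE.V le_rfl
  have hE2 : kadE μ (2 * a) (X ^ 2) := by rw [sq]; exact hE.mul hE (by ring)
  have hE4 : kadE μ (4 * a) (X ^ 4) := by
    have : X ^ 4 = X ^ 2 * X ^ 2 := by ring
    rw [this]; exact hE2.mul hE2 (by ring)
  have hth : kadE μ (4 * a) (th A B X) := by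
    have : th A B X = X ^ 4 + (-(2 * A * X ^ 2) - 8 * B * X + A * A) := by unfold th; ring
    rw [this]
    refine hE4.add ?_
    refine kadV.add (kadV.sub (kadV.neg ?_) ?_) ?_
    · exact (hi2.mul hA (k := 1) (by omega)).mul (hE2.V le_rfl) (by omega)
    · exact (hi8.mul hB (k := 1) (by omega)).mul hX (by omega)
    · exact hA.mul hA (by omega)
  have hcu : kadV μ (3 * a) (cu A B X) := by
    have : cu A B X = X ^ 2 * X + A * X + B := by unfold cu; ring
    rw [this]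
    refine kadV.add (kadV.add ?_ ?_) ?_
    · exact (hE2.V le_rfl).mul hX (by omega)
    · exact hA.mul hX (by omega)
    · exact hB.mono (by omega)
  have : kadV μ (3 * a + 1) (th A B X) := by
    rw [← e]
    exact hX'.mul (hi4.mul hcu (k := 3 * a) (by omega)) (by omega)
  exact hth.not_V (m := 4 * a + 1) (by omega) (this.mono (by omega))


theorem kadE.sq {n : ℤ} {a : F} (h : kadE μ n a) {k : ℤ} (hk : k = 2 * n) : kadE μ k (a ^ 2) := by
  rw [_root_.sq]; exact h.mul h (by omega)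

theorem kadV.sq {n : ℤ} {a : F} (h : kadV μ n a) {k : ℤ} (hk : k ≤ 2 * n) : kadV μ k (a ^ 2) := by
  rw [_root_.sq]; exact h.mul h (by omega)

theorem kadV.cube {n : ℤ} {a : F} (h : kadV μ n a) {k : ℤ} (hk : k ≤ 3 * n) : kadV μ k (a ^ 3) := by
  have : a ^ 3 = a ^ 2 * a := by ring
  rw [this]; exact (h.sq le_rfl).mul h (by omega)

theorem kadV.four {n : ℤ} {a : F} (h : kadV μ n a) {k : ℤ} (hk : k ≤ 4 * n) : kadV μ k (a ^ 4) := by
  have : a ^ 4 = a ^ 2 * a ^ 2 := by ring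
  rw [this]; exact (h.sq le_rfl).mul (h.sq le_rfl) (by omega)

/-- no odd valuation for `y ^ 2` -/
theorem kad_odd {y c : F} (e : y ^ 2 = c) {n : ℤ} (h : kadE μ n c) (hn : ¬ ∃ m, n = 2 * m) : False := by
  rw [← e] at h
  obtain ⟨m, -, hm⟩ := kad_sq h
  exact hn ⟨m, hm⟩

/-- if the numerator has small valuation the double has good reduction -/
theorem kad_of_th {A B X X' : F} (e : X' * (4 * cu A B X) = th A B X) {n : ℤ}
    (h1 : kadE μ n (th A B X)) (h2 : kadV μ n (cu A B X)) : ¬ kadV μ 1 X' := by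
  intro h
  have hi4 : kadV μ 0 (4 : F) := by simpa using kadV_int (μ := μ) 4
  have : kadV μ (n + 1) (th A B X) := by
    rw [← e]; exact h.mul (hi4.mul h2 (k := n) (by omega)) (by omega)
  exact h1.not_V (by omega) this

theorem kad_th_V {A B X : F} {a b c n : ℤ} (hA : kadV μ a A) (hB : kadV μ b B) (hX : kadV μ c X)
    (h1 : n ≤ 4 * c) (h2 : n ≤ a + 2 * c) (h3 : n ≤ b + c) (h4 : n ≤ 2 * a) :
    kadV μ n (th A B X) := by
  have hi2 : kadV μ 0 (2 : F) := by simpa using kadV_int (μ := μ) 2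
  have hi8 : kadV μ 0 (8 : F) := by simpa using kadV_int (μ := μ) 8
  unfold th
  refine kadV.add (kadV.sub (kadV.sub (hX.four h1) ?_) ?_) (hA.sq h4)
  · exact (hi2.mul hA (k := a) (by omega)).mul (hX.sq (k := 2 * c) le_rfl) (by omega)
  · exact (hi8.mul hB (k := b) (by omega)).mul hX (by omega)

theorem kad_th_E {A B X : F} {a b c n : ℤ} (hA : kadE μ a A) (hB : kadV μ b B) (hX : kadV μ c X)
    (h1 : n + 1 ≤ 4 * c) (h2 : n + 1 ≤ a + 2 * c) (h3 : n + 1 ≤ b + c) (h4 : n = 2 * a) :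
    kadE μ n (th A B X) := by
  have hi2 : kadV μ 0 (2 : F) := by simpa using kadV_int (μ := μ) 2
  have hi8 : kadV μ 0 (8 : F) := by simpa using kadV_int (μ := μ) 8
  unfold th
  refine kadE.add' (kadV.sub (kadV.sub (hX.four h1) ?_) ?_) (hA.sq h4)
  · exact (hi2.mul (hA.V le_rfl) (k := a) (by omega)).mul (hX.sq (k := 2 * c) le_rfl) (by omega)
  · exact (hi8.mul hB (k := b) (by omega)).mul hX (by omega)

theorem kad_cu_V {A B X : F} {a b c n : ℤ} (hA : kadV μ a A) (hB : kadV μ b B) (hX : kadV μ c X)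
    (h1 : n ≤ 3 * c) (h2 : n ≤ a + c) (h3 : n ≤ b) : kadV μ n (cu A B X) := by
  unfold cu
  exact kadV.add (kadV.add (hX.cube h1) (hA.mul hX h2)) (hB.mono h3)

theorem kad_cu_EB {A B X : F} {a b c n : ℤ} (hA : kadV μ a A) (hB : kadE μ b B) (hX : kadV μ c X)
    (h1 : n + 1 ≤ 3 * c) (h2 : n + 1 ≤ a + c) (h3 : n = b) : kadE μ n (cu A B X) := by
  subst h3
  unfold cu
  exact kadE.add' (kadV.add (hX.cube h1) (hA.mul hX h2)) hB

theorem kad_cu_EX {A B X : F} {a b c n : ℤ} (hA : kadV μ a A) (hB : kadV μ b B) (hX : kadE μ c X)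
    (h1 : n = 3 * c) (h2 : n + 1 ≤ a + c) (h3 : n + 1 ≤ b) : kadE μ n (cu A B X) := by
  unfold cu
  have : X ^ 3 + A * X + B = X ^ 2 * X + (A * X + B) := by ring
  rw [this]
  refine ((hX.sq rfl).mul hX (by omega)).add ?_
  exact (hA.mul (hX.V le_rfl) h2).add (hB.mono h3)

/-- tripling -/
theorem kad_triple [CharZero F] {A B X X2 X3 : F} (hp5 : μ.ord (2 : F) = 0 ∧ μ.ord (3 : F) = 0) {a b c : ℤ} (hA : kadV μ a A) (hB : kadE μ b B)
    (hX : kadV μ c X) (hX2 : kadV μ c X2) (hc : 1 ≤ c) (hb : b = 2 * c) (ha : b + 1 ≤ c + a)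
    (hb' : b + 1 ≤ 3 * c)
    (e : (X3 + X) * (X2 - X) ^ 2 = 2 * ((X2 + X) * (A + X2 * X) + 2 * B)) : ¬ kadV μ 1 X3 := by
  obtain ⟨h2, h3⟩ := kad_ne (μ := μ) hp5
  intro h
  have hR : kadE μ b (2 * ((X2 + X) * (A + X2 * X) + 2 * B)) := by
    refine h2.mul (n := b) (kadE.add' ?_ (h2.mul hB (by omega))) (by omega)
    refine (hX2.add hX).mul (n := b + 1 - c) ?_ (by omega)
    exact (hA.mono (by omega)).add ((hX2.mul hX (k := 2 * c) (by omega)).mono (by omega))
  rw [← e] at hR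
  have : kadV μ (b + 1) ((X3 + X) * (X2 - X) ^ 2) := by
    refine (h.add (hX.mono hc)).mul ((hX2.sub hX).sq (k := 2 * c) (by omega)) (by omega)
  exact hR.not_V (by omega) this


theorem kadV_int' (z : ℤ) : kadV μ 0 (z : F) := kadV_int z

/-- the singular point of the reduction -/
theorem kad_node [CharZero F] {A B X X2 : F} (hp5 : μ.ord (2 : F) = 0 ∧ μ.ord (3 : F) = 0) {M : ℤ} (hA : kadE μ 0 A) (hB : kadE μ 0 B)
    (hM : kadE μ M (4 * A ^ 3 + 27 * B ^ 2)) (hM1 : 1 ≤ M) (hX : kadV μ 0 X)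
    (hg1 : kadV μ 1 (cu A B X)) (hodd : ∀ n, kadE μ n (cu A B X) → ¬ ∃ m, n = 2 * m)
    (h3 : kadV μ 1 (3 * X ^ 2 + A)) :
    kadV μ 1 (X - (-(3 * B) / (2 * A))) ∧ (X2 * (4 * cu A B X) = th A B X →
      ¬ kadV μ 1 (X2 - (-(3 * B) / (2 * A)))) := by
  obtain ⟨i2, i3⟩ := kad_ne (μ := μ) hp5
  have i4 : kadE μ 0 (4 : F) := by
    have := i2.mul i2 (k := 0) (by omega); norm_num at this; exact this
  have i9 : kadE μ 0 (9 : F) := by
    have := i3.mul i3 (k := 0) (by omega); norm_num at this; exact this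
  have hA0 : A ≠ 0 := hA.ne
  obtain ⟨t, ht⟩ : ∃ t : F, t = -(3 * B) / (2 * A) := ⟨_, rfl⟩
  rw [← ht]
  have hBt : B = -(2 * A * t) / 3 := by rw [ht]; field_simp
  have htE : kadE μ 0 t := by
    rw [ht, div_eq_mul_inv]
    exact (i3.mul hB (k := 0) (by omega)).neg.mul ((i2.mul hA (k := 0) (by omega)).inv) (by omega)
  obtain ⟨d, hd⟩ : ∃ d : F, d = 3 * t ^ 2 + A := ⟨_, rfl⟩
  have hdM : kadE μ M d := by
    have e1 : d = (4 * A ^ 3 + 27 * B ^ 2) * (4 * A ^ 2)⁻¹ := by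
      rw [hBt, hd]; field_simp; ring
    rw [e1]
    exact hM.mul ((i4.mul (hA.sq (k := 0) (by omega)) (k := 0) (by omega)).inv) (by omega)
  obtain ⟨W, hW⟩ : ∃ W : F, W = X - t := ⟨_, rfl⟩
  have hX' : X = W + t := by rw [hW]; ring
  have hW1 : kadV μ 1 W := by
    have e1 : W * (2 * A) = 3 * cu A B X - X * (3 * X ^ 2 + A) := by
      rw [hBt, hW]; unfold cu; ring
    refine kadV.of_mul (k := 1) (n := 0) ?_ (i2.mul hA (k := 0) (by omega)) (by omega)
    rw [e1]
    exact ((i3.V le_rfl).mul hg1 (by omega)).sub (hX.mul h3 (by omega))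
  refine ⟨by rw [← hW]; exact hW1, ?_⟩
  obtain ⟨e0, he0⟩ : ∃ e0 : F, e0 = t * d * 3⁻¹ := ⟨_, rfl⟩
  have heM : kadE μ M e0 := by
    rw [he0]
    exact (htE.mul hdM (k := M) (by omega)).mul i3.inv (by omega)
  have hcE : kadE μ 0 (3 * t) := i3.mul htE (by omega)
  have hgid : cu A B X = W ^ 2 * (3 * t) + (W ^ 3 + d * W + e0) := by
    rw [hBt, hX', he0, hd]; unfold cu; ring
  have hW2 : kadV μ M (W ^ 2) := by
    rcases kad_V_or (μ := μ) (a := W ^ 2) M with h | ⟨m, hm, hE⟩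
    · exact h
    · exfalso
      obtain ⟨j, hj, hjm⟩ := kad_sq hE
      subst hjm
      have hj1 : 1 ≤ j := by
        by_contra hlt
        exact hj.not_V (by omega : j < 1) hW1
      refine hodd (2 * j) ?_ ⟨j, rfl⟩
      rw [hgid]
      refine (hE.mul hcE (k := 2 * j) (by omega)).add ?_
      refine kadV.add (kadV.add ?_ ?_) (heM.V (by omega))
      · exact (hj.V le_rfl).cube (by omega)
      · exact (hdM.V le_rfl).mul (hj.V le_rfl) (by omega)
  have hgM : kadV μ M (cu A B X) := by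
    rw [hgid]
    refine kadV.add (hW2.mul (hcE.V le_rfl) (by omega)) ?_
    refine kadV.add (kadV.add ?_ ?_) (heM.V (by omega))
    · have : W ^ 3 = W ^ 2 * W := by ring
      rw [this]; exact hW2.mul hW1 (by omega)
    · exact (hdM.V le_rfl).mul hW1 (by omega)
  intro he hcon
  have hnum : (X2 - t) * (4 * cu A B X) =
      (W ^ 2 - d) ^ 2 - (4 * e0) * (2 * W) + -((4 * e0) * (3 * t)) := by
    have : (X2 - t) * (4 * cu A B X) = th A B X - t * (4 * cu A B X) := by rw [← he]; ring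
    rw [this, hBt, hX', he0, hd]; unfold cu th; ring
  have hnumE : kadE μ M ((X2 - t) * (4 * cu A B X)) := by
    rw [hnum]
    refine kadE.add' (kadV.sub ?_ ?_) ?_
    · exact (hW2.sub (hdM.V le_rfl)).sq (by omega)
    · refine ((i4.V le_rfl).mul (heM.V le_rfl) (k := M) (by omega)).mul
        ((i2.V le_rfl).mul hW1 (k := 1) (by omega)) (by omega)
    · exact ((i4.mul heM (k := M) (by omega)).mul hcE (by omega)).neg
  exact hnumE.not_V (by omega : M < M + 1)
    (hcon.mul ((i4.V le_rfl).mul hgM (k := M) (by omega)) (by omega))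

/-- one step, scaled, when the reduction of the point is not the singular one -/
theorem kad_unit [CharZero F] {A B X X2 : F} (hp5 : μ.ord (2 : F) = 0 ∧ μ.ord (3 : F) = 0) (hA : kadV μ 0 A) (hB : kadV μ 0 B) (hX : kadV μ 0 X)
    (hg1 : kadV μ 1 (cu A B X)) (e : X2 * (4 * cu A B X) = th A B X)
    (hu : ¬ kadV μ 1 (4 * A ^ 3 + 27 * B ^ 2) ∨ ¬ kadV μ 1 (3 * X ^ 2 + A)) : ¬ kadV μ 0 X2 := by
  obtain ⟨i2, i3⟩ := kad_ne (μ := μ) hp5
  have i4 : kadV μ 0 (4 : F) := by simpa using kadV_int (μ := μ) 4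
  have i8 : kadV μ 0 (8 : F) := by simpa using kadV_int (μ := μ) 8
  have i5 : kadV μ 0 (5 : F) := by simpa using kadV_int (μ := μ) 5
  have i27 : kadV μ 0 (27 : F) := by simpa using kadV_int (μ := μ) 27
  intro h
  have hth : kadV μ 1 (th A B X) := by
    rw [← e]; exact h.mul (i4.mul hg1 (k := 1) (by omega)) (by omega)
  rcases hu with hu | hu
  · apply hu
    have key : 4 * A ^ 3 + 27 * B ^ 2 =
        (3 * X ^ 2 + 4 * A) * th A B X - (3 * X ^ 3 - 5 * A * X - 27 * B) * cu A B X := by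
      unfold th cu; ring
    rw [key]
    refine kadV.sub (kadV.mul (m := 0) ?_ hth (by omega)) (kadV.mul (m := 0) ?_ hg1 (by omega))
    · exact ((i3.V le_rfl).mul (hX.sq (k := 0) (by omega)) (by omega)).add (i4.mul hA (by omega))
    · refine kadV.sub (kadV.sub ((i3.V le_rfl).mul (hX.cube (k := 0) (by omega)) (by omega)) ?_) ?_
      · exact (i5.mul hA (k := 0) (by omega)).mul hX (by omega)
      · exact i27.mul hB (by omega)
  · rcases kad_V_or (μ := μ) (a := 3 * X ^ 2 + A) 1 with h1 | ⟨m, hm, hE⟩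
    · exact hu h1
    · have hid : th A B X = (3 * X ^ 2 + A) ^ 2 - (8 * X) * cu A B X := by unfold th cu; ring
      have hm0 : m = 0 := by
        have : kadV μ 0 (3 * X ^ 2 + A) :=
          ((i3.V le_rfl).mul (hX.sq (k := 0) (by omega)) (by omega)).add hA
        by_contra hne
        exact hE.not_V (by omega : m < 0) this
      subst hm0
      have : kadE μ 0 (th A B X) := by
        rw [hid]
        exact (hE.sq (k := 0) (by omega)).sub ((i8.mul hX (k := 0) (by omega)).mul hg1 (by omega))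
      exact this.not_V (by omega) hth


theorem kad_E_succ {a : F} {n : ℤ} (h : kadV μ n a) (h' : ¬ kadV μ (n + 1) a) : kadE μ n a := kad_E_of h h'

theorem kad_pj {π : F} (hπ : kadE μ 1 π) (j : ℕ) : kadE μ j (π ^ j) := by
  unfold kadE at *
  rw [μ.nr_pow, hπ, ← zpow_natCast, ← zpow_mul]
  congr 1
  ring

theorem kad_div {π : F} (hπ : kadE μ 1 π) {a : F} {n : ℤ} (h : kadV μ n a) (j : ℕ) {m : ℤ}
    (hm : m + j ≤ n) : kadV μ m (a / π ^ j) := by
  have hpj : kadE μ j (π ^ j) := kad_pj hπ j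
  refine kadV.of_mul (k := n) (n := j) ?_ hpj hm
  rwa [div_mul_cancel₀ _ hpj.ne]

/-- parity for the scaled cubic -/
theorem kad_par {π : F} (hπ : kadE μ 1 π) {A B X y : F} (c : y ^ 2 = cu A B X) (hX : kadV μ 0 (X / π ^ 1))
    (hA : kadV μ 0 (A / π ^ 2)) (hB : kadV μ 0 (B / π ^ 3)) :
    (∀ n, kadE μ n (cu (A / π ^ 2) (B / π ^ 3) (X / π ^ 1)) → ¬ ∃ m, n = 2 * m) ∧
    kadV μ 1 (cu (A / π ^ 2) (B / π ^ 3) (X / π ^ 1)) := by
  have hp0 : π ≠ 0 := hπ.ne
  have hs : cu A B X = π ^ 3 * cu (A / π ^ 2) (B / π ^ 3) (X / π ^ 1) := by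
    unfold cu; field_simp
  have h1 : ∀ n, kadE μ n (cu (A / π ^ 2) (B / π ^ 3) (X / π ^ 1)) → ¬ ∃ m, n = 2 * m := by
    intro n hn hm
    obtain ⟨m, rfl⟩ := hm
    have : kadE μ (2 * m + 3) (cu A B X) := by
      rw [hs]
      exact (kad_pj hπ 3).mul hn (by push_cast; ring)
    exact kad_odd c this (by omega)
  refine ⟨h1, ?_⟩
  have h0 : kadV μ 0 (cu (A / π ^ 2) (B / π ^ 3) (X / π ^ 1)) :=
    kad_cu_V hA hB hX (by omega) (by omega) (by omega)
  by_contra hcon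
  exact h1 0 (kad_E_of h0 hcon) ⟨0, by ring⟩

theorem kad_one [CharZero F] (hp5 : μ.ord (2 : F) = 0 ∧ μ.ord (3 : F) = 0) {A B : F}
    (hA1 : kadV μ 1 A) (hB1 : kadV μ 1 B)
    (hnot : ¬ (kadV μ 4 A ∧ kadV μ 6 B)) (hD : 4 * A ^ 3 + 27 * B ^ 2 ≠ 0)
    {x y : ℕ → F} (h : GSeq (0 : F) A B x y) {k : ℕ} (hk : 1 ≤ k) :
    ¬ kadV μ 1 (x k) ∨ ¬ kadV μ 1 (x (2 * k)) ∨ ¬ kadV μ 1 (x (3 * k)) ∨ ¬ kadV μ 1 (x (4 * k)) := by
  obtain ⟨π, -, hπ1, hπ2⟩ := μ.exists_unif
  have hπ : kadE μ 1 π := by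
    unfold kadE
    rw [hπ2, zpow_neg, zpow_one]
  by_contra hcon
  push Not at hcon
  obtain ⟨H1, H2, H3, H4⟩ := hcon
  obtain ⟨e1, c1⟩ := kad_dbl h hk
  obtain ⟨e2, c2⟩ := kad_dbl h (k := 2 * k) (by omega)
  rw [show 2 * (2 * k) = 4 * k by ring] at e2
  have t1 := (kad_SP h hk (show k < 2 * k by omega)).1
  rw [show 2 * k + k = 3 * k by ring, show 2 * k - k = k by omega] at t1
  by_cases hB2 : kadV μ 2 B
  swap
  · exact kad_odd c1 (kad_cu_EB (a := 1) (b := 1) (c := 1) (n := 1) hA1 (kad_E_of hB1 hB2) H1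
      (by omega) (by omega) rfl) (by omega)
  by_cases hA2 : kadV μ 2 A
  swap
  · exact kad_of_th e1 (n := 2) (kad_th_E (kad_E_of hA1 hA2) hB2 H1 (by omega) (by omega) (by omega)
      (by omega)) (kad_cu_V hA1 hB2 H1 (by omega) (by omega) (by omega)) H2
  by_cases hB3 : kadV μ 3 B
  swap
  · exact kad_triple hp5 (a := 2) (b := 2) (c := 1) hA2 (kad_E_of hB2 hB3) H1 H2 (by omega)
      (by omega) (by omega) (by omega) t1 H3
  by_cases hn : kadV μ 3 A ∧ kadV μ 4 B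
  · obtain ⟨hA3, hB4⟩ := hn
    by_cases hx2 : kadV μ 2 (x k)
    swap
    · exact kad_odd c1 (kad_cu_EX (n := 3) hA3 hB4 (kad_E_of H1 hx2) (by omega) (by omega)
        (by omega)) (by omega)
    by_cases hB5 : kadV μ 5 B
    swap
    · have hBE : kadE μ 4 B := kad_E_of hB4 hB5
      have hcE : kadE μ 4 (cu A B (x k)) := kad_cu_EB hA3 hBE hx2 (by omega) (by omega) rfl
      have hthV : kadV μ 6 (th A B (x k)) :=
        kad_th_V hA3 hB4 hx2 (by omega) (by omega) (by omega) (by omega)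
      have i4 : kadE μ 0 (4 : F) := by
        have := (kad_ne (μ := μ) hp5).1.mul (kad_ne (μ := μ) hp5).1 (k := 0) (by omega)
        norm_num at this; exact this
      have hx22 : kadV μ 2 (x (2 * k)) := by
        rw [← e1] at hthV
        exact hthV.of_mul (i4.mul hcE (k := 4) (by omega)) (by omega)
      exact kad_triple hp5 (a := 3) (b := 4) (c := 2) hA3 hBE hx2 hx22 (by omega)
        (by omega) (by omega) (by omega) t1 H3
    by_cases hA4 : kadV μ 4 A
    swap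
    · have hc5 : kadV μ 5 (cu A B (x k)) := kad_cu_V hA3 hB5 hx2 (by omega) (by omega) (by omega)
      have hc6 : kadV μ 6 (cu A B (x k)) := by
        by_contra hc
        exact kad_odd c1 (kad_E_of hc5 hc) (by omega)
      exact kad_of_th e1 (n := 6) (kad_th_E (kad_E_of hA3 hA4) hB5 hx2 (by omega) (by omega) (by omega)
        (by omega)) hc6 H2
    · have hB6 : ¬ kadV μ 6 B := by
        intro hB6
        exact hnot ⟨hA4, hB6⟩
      exact kad_odd c1 (kad_cu_EB (n := 5) hA4 (kad_E_of hB5 hB6) hx2 (by omega) (by omega) rfl) (by omega)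
  · -- node
    have hp0 : π ≠ 0 := hπ.ne
    have vA : kadV μ 0 (A / π ^ 2) := kad_div hπ hA2 2 (by norm_num)
    have vB : kadV μ 0 (B / π ^ 3) := kad_div hπ hB3 3 (by norm_num)
    have vX : kadV μ 0 (x k / π ^ 1) := kad_div hπ H1 1 (by norm_num)
    have vX2 : kadV μ 0 (x (2 * k) / π ^ 1) := kad_div hπ H2 1 (by norm_num)
    have vX4 : kadV μ 0 (x (4 * k) / π ^ 1) := kad_div hπ H4 1 (by norm_num)
    obtain ⟨o1, g1⟩ := kad_par hπ c1 vX vA vB
    obtain ⟨o2, g2⟩ := kad_par hπ c2 vX2 vA vB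
    have s1 : x (2 * k) / π ^ 1 * (4 * cu (A / π ^ 2) (B / π ^ 3) (x k / π ^ 1)) =
        th (A / π ^ 2) (B / π ^ 3) (x k / π ^ 1) := by
      have : x (2 * k) * (4 * cu A B (x k)) / π ^ 4 = th A B (x k) / π ^ 4 := by
        rw [e1]
      unfold cu th at this ⊢
      field_simp at this ⊢
      linear_combination this
    have s2 : x (4 * k) / π ^ 1 * (4 * cu (A / π ^ 2) (B / π ^ 3) (x (2 * k) / π ^ 1)) =
        th (A / π ^ 2) (B / π ^ 3) (x (2 * k) / π ^ 1) := by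
      have : x (4 * k) * (4 * cu A B (x (2 * k))) / π ^ 4 =
          th A B (x (2 * k)) / π ^ 4 := by
        rw [e2]
      unfold cu th at this ⊢
      field_simp at this ⊢
      linear_combination this
    by_cases hDV : kadV μ 1 (4 * (A / π ^ 2) ^ 3 + 27 * (B / π ^ 3) ^ 2)
    swap
    · exact kad_unit hp5 vA vB vX g1 s1 (Or.inl hDV) vX2
    by_cases h3V : kadV μ 1 (3 * (x k / π ^ 1) ^ 2 + A / π ^ 2)
    swap
    · exact kad_unit hp5 vA vB vX g1 s1 (Or.inr h3V) vX2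
    have hD0 : 4 * (A / π ^ 2) ^ 3 + 27 * (B / π ^ 3) ^ 2 ≠ 0 := by
      intro h0
      apply hD
      have : (4 * A ^ 3 + 27 * B ^ 2) = 0 := by
        field_simp at h0
        linear_combination h0
      exact this
    obtain ⟨M, hM⟩ := kad_exists (μ := μ) hD0
    have hM1 : 1 ≤ M := by
      by_contra hlt
      exact hM.not_V (by omega : M < 1) hDV
    obtain ⟨i2, i3⟩ := kad_ne (μ := μ) hp5
    have i4 : kadE μ 0 (4 : F) := by
      have := i2.mul i2 (k := 0) (by omega); norm_num at this; exact this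
    have i27 : kadE μ 0 (27 : F) := by
      have := (i3.mul i3 (k := 0) (by omega)).mul i3 (k := 0) (by omega); norm_num at this; exact this
    have hback : ∀ {a : F} {n : ℤ} (j : ℕ), kadV μ n (a / π ^ j) → kadV μ (n + j) a := by
      intro a n j hh
      have := hh.mul ((kad_pj hπ j).V le_rfl) (k := n + j) le_rfl
      rwa [div_mul_cancel₀ _ (kad_pj hπ j).ne] at this
    have hdown : ∀ {a : F} {j : ℕ}, kadV μ 1 (a ^ (j + 1)) → kadV μ 1 a := by
      intro a j hh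
      rcases kad_V_or (μ := μ) (a := a) 1 with h1 | ⟨m, hm, hE⟩
      · exact h1
      · exfalso
        have : ∀ i : ℕ, kadE μ ((i + 1 : ℕ) * m) (a ^ (i + 1)) := by
          intro i
          induction i with
          | zero => simpa using hE
          | succ i ih =>
            rw [pow_succ]
            exact ih.mul hE (by push_cast; ring)
        refine (this j).not_V (m := 1) ?_ hh
        have : ((j + 1 : ℕ) : ℤ) * m ≤ 0 := mul_nonpos_of_nonneg_of_nonpos (by positivity) (by omega)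
        omega
    have uA : ¬ kadV μ 1 (A / π ^ 2) := by
      intro hh
      have hb : kadV μ 1 (B / π ^ 3) := by
        refine hdown (j := 1) ?_
        refine kadV.of_mul (k := 1) (n := 0) ?_ i27 (by omega)
        have : (B / π ^ 3) ^ (1 + 1) * 27 =
            (4 * (A / π ^ 2) ^ 3 + 27 * (B / π ^ 3) ^ 2) - 4 * (A / π ^ 2) ^ 3 := by
          ring
        rw [this]
        exact hDV.sub ((i4.V le_rfl).mul (hh.cube (k := 1) (by omega)) (by omega))
      refine hn ⟨?_, ?_⟩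
      · have := hback 2 hh; norm_num at this; exact this
      · have := hback 3 hb; norm_num at this; exact this
    have uB : ¬ kadV μ 1 (B / π ^ 3) := by
      intro hh
      apply uA
      refine hdown (j := 2) ?_
      refine kadV.of_mul (k := 1) (n := 0) ?_ i4 (by omega)
      have : (A / π ^ 2) ^ (2 + 1) * 4 =
          (4 * (A / π ^ 2) ^ 3 + 27 * (B / π ^ 3) ^ 2) - 27 * (B / π ^ 3) ^ 2 := by
        ring
      rw [this]
      exact hDV.sub ((i27.V le_rfl).mul (hh.sq (k := 1) (by omega)) (by omega))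
    have EA := kad_E_of vA uA
    have EB := kad_E_of vB uB
    have hne := (kad_node (X2 := x (2 * k) / π ^ 1) hp5 EA EB hM hM1 vX g1 o1 h3V).2 s1
    by_cases h3V2 : kadV μ 1 (3 * (x (2 * k) / π ^ 1) ^ 2 + A / π ^ 2)
    · exact hne (kad_node (X2 := x (4 * k) / π ^ 1) hp5 EA EB hM hM1 vX2 g2 o2 h3V2).1
    · exact kad_unit hp5 vA vB vX2 g2 s2 (Or.inr h3V2) vX4

omit [Field F] in
theorem st_KAD : ST_KAD := by
  intro F _ _ μ h2 h3 A B hD hA hB hnot' x y h k hk
  have hp5 := And.intro h2 h3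
  have hnot : ¬ (kadV μ 4 A ∧ kadV μ 6 B) := hnot'
  have hlt : ∀ a : F, μ.nr a < 1 → kadV μ 1 a := by
    intro a ha
    by_cases h0 : a = 0
    · rw [h0]; exact kadV_zero 1
    · exact (μ.nr_le_zpow_iff h0 1).2 ((μ.nr_lt_one_iff h0).1 ha)
  have hA1 := hlt A hA
  have hB1 := hlt B hB
  have hadd : ∀ a b : ℕ, 1 ≤ b → b < a → ¬ kadV μ 1 (x a) → ¬ kadV μ 1 (x b) → ¬ kadV μ 1 (x (a + b)) := by
    intro a b hb hab ha hb' hs
    obtain ⟨r1, r2⟩ := kad_SP h hb (show b < a + b by omega)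
    rw [show a + b - b = a by omega] at r1 r2
    have := kad_closed (μ := μ) (X1 := x b) (X2 := x (a + b)) (X3 := x (a + b + b)) (X4 := x a) hA1 hB1
      (by linear_combination r1) (by linear_combination r2) hb' hs
    exact ha this.2
  have hdbl : ∀ a : ℕ, 1 ≤ a → ¬ kadV μ 1 (x a) → ¬ kadV μ 1 (x (2 * a)) := fun a ha h0 =>
    kad_closed_dbl hA1 hB1 (kad_dbl h ha).1 h0
  have hmul : ∀ a : ℕ, 1 ≤ a → ¬ kadV μ 1 (x a) → ∀ m : ℕ, ¬ kadV μ 1 (x ((m + 1) * a)) := by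
    intro a ha h0 m
    induction m with
    | zero => simpa using h0
    | succ m ih =>
      rcases Nat.eq_zero_or_pos m with rfl | hm
      · exact hdbl a ha h0
      · rw [show (m + 1 + 1) * a = (m + 1) * a + a by ring]
        exact hadd _ _ ha (by nlinarith) ih h0
  have h12 : ¬ kadV μ 1 (x (12 * k)) := by
    rcases kad_one hp5 hA1 hB1 hnot hD h hk with h1 | h1 | h1 | h1
    · exact hmul k hk h1 11
    · have := hmul (2 * k) (by omega) h1 5
      rwa [show (5 + 1) * (2 * k) = 12 * k by ring] at this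
    · have := hmul (3 * k) (by omega) h1 3
      rwa [show (3 + 1) * (3 * k) = 12 * k by ring] at this
    · have := hmul (4 * k) (by omega) h1 2
      rwa [show (2 + 1) * (4 * k) = 12 * k by ring] at this
  exact kad_nr h12

end Pool.Agent.Helper42.LK
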