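import Pool.Agent.Helper42.LK.Defs
import Pool.Agent.Helper34.LS.CH
import Pool.Agent.Helper34.LS.NC

open Filter Topology NumberField

namespace Pool.Agent.Helper42.LK

open Pool.Agent.Helper42.LS

theorem st_KCH (hPL : ST_KPL) : ST_KCH := by
  intro K _ _ A B hD
  obtain ⟨C, hC⟩ := hPL K A B hD
  refine ⟨C / 3, ?_⟩
  intro x y hS
  obtain ⟨h1, h2⟩ := hC x y hS
  refine ch_main (fun k => Height.logHeight₁ (x k)) C C h2 ?_
  intro k l hl hlk
  have := (abs_le.1 (h1 k l hl hlk)).2
  linarith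

theorem st_KNC (hCH : ST_KCH) : ST_KNC := by
  intro K _ _ A B hD
  obtain ⟨C, hC⟩ := hCH K A B hD
  have hfin : {a : K | Height.logHeight₁ a ≤ C + 1}.Finite := Northcott.finite_le _
  set m : ℕ := hfin.toFinset.card + 1 with hm
  have hm0 : (0 : ℝ) < m := by positivity
  refine ⟨1 / (m : ℝ) ^ 2, by positivity, ?_⟩
  intro x y e hS he
  by_contra hcon
  push Not at hcon
  have hbound : ∀ k : ℕ, 1 ≤ k → Height.logHeight₁ (x k) ≤ (k : ℝ) ^ 2 * e + C := by
    intro k hk
    obtain ⟨e', he', hC'⟩ := hC _ _ (nc_scale hS k hk)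
    have t1 := he' 1 le_rfl
    have t2 := he k hk
    simp only [one_mul] at t1
    have h3 := tendsto_nhds_unique t1 t2
    simp only [Nat.cast_one, one_pow, one_mul] at h3
    rw [h3, mul_one] at hC'
    linarith [(abs_le.1 hC').1]
  have hmem : ∀ k ∈ Finset.Icc 1 m, x k ∈ hfin.toFinset := by
    intro k hk
    obtain ⟨hk1, hk2⟩ := Finset.mem_Icc.1 hk
    rw [Set.Finite.mem_toFinset]
    have h1 := hbound k hk1
    have h2 : (k : ℝ) ^ 2 * e ≤ 1 := by
      rcases le_or_gt e 0 with h0 | h0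
      · have : (k : ℝ) ^ 2 * e ≤ 0 := mul_nonpos_of_nonneg_of_nonpos (by positivity) h0
        linarith
      · have hkm : (k : ℝ) ^ 2 ≤ (m : ℝ) ^ 2 := by
          have : (k : ℝ) ≤ m := by exact_mod_cast hk2
          exact pow_le_pow_left₀ (by positivity) this 2
        have h3 : (k : ℝ) ^ 2 * e ≤ (m : ℝ) ^ 2 * e := mul_le_mul_of_nonneg_right hkm h0.le
        have h4 : (m : ℝ) ^ 2 * e ≤ 1 := by
          rw [lt_div_iff₀ (by positivity)] at hcon
          linarith
        linarith
    show Height.logHeight₁ (x k) ≤ C + 1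
    linarith
  have hinj : Set.InjOn x (Finset.Icc 1 m : Set ℕ) := by
    intro k hk l hl hkl
    simp only [Finset.coe_Icc, Set.mem_Icc] at hk hl
    rcases lt_trichotomy k l with h | h | h
    · exact absurd hkl.symm (hS.xne l k hk.1 h)
    · exact h
    · exact absurd hkl (hS.xne k l hl.1 h)
  have hcard := Finset.card_le_card_of_injOn x hmem hinj
  rw [Nat.card_Icc] at hcard
  omega

end Pool.Agent.Helper42.LK
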