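import Pool.Agent.Helper42.LK.Defs

namespace Pool.Agent.Helper42.LK

open Pool.Agent.Helper42.LS

/-- valuation at least `n` -/
def kpaG {F : Type} [Field F] (μ : DV F) (n : ℤ) (x : F) : Prop := x = 0 ∨ n ≤ μ.ord x

/-- valuation exactly `n` -/
def kpaE {F : Type} [Field F] (μ : DV F) (n : ℤ) (x : F) : Prop := x ≠ 0 ∧ μ.ord x = n

variable {F : Type} [Field F]

lemma kpaG_zero (μ : DV F) (n : ℤ) : kpaG μ n 0 := Or.inl rfl

lemma kpaE.G {μ : DV F} {n m : ℤ} {x : F} (h : kpaE μ n x) (hm : m ≤ n) : kpaG μ m x :=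
  Or.inr (by rw [h.2]; exact hm)

lemma kpaG.mono {μ : DV F} {n m : ℤ} {x : F} (h : kpaG μ n x) (hm : m ≤ n) : kpaG μ m x := by
  rcases h with h | h
  · exact Or.inl h
  · exact Or.inr (le_trans hm h)

lemma kpaG.neg {μ : DV F} {n : ℤ} {x : F} (h : kpaG μ n x) : kpaG μ n (-x) := by
  rcases h with h | h
  · exact Or.inl (by rw [h]; simp)
  · exact Or.inr (by rw [μ.ord_neg]; exact h)

lemma kpaE.neg {μ : DV F} {n : ℤ} {x : F} (h : kpaE μ n x) : kpaE μ n (-x) :=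
  ⟨neg_ne_zero.mpr h.1, by rw [μ.ord_neg]; exact h.2⟩

variable {μ : DV F}

lemma kpaG.add {n : ℤ} {x y : F} (hx : kpaG μ n x) (hy : kpaG μ n y) : kpaG μ n (x + y) := by
  by_cases h : x + y = 0
  · exact Or.inl h
  rcases hx with hx | hx
  · subst hx; simpa using hy
  rcases hy with hy | hy
  · subst hy
    exact Or.inr (by simpa using hx)
  · exact Or.inr (le_trans (le_min hx hy) (μ.min_le_ord_add h))

lemma kpaG.mul {m n : ℤ} {x y : F} (hx : kpaG μ m x) (hy : kpaG μ n y) : kpaG μ (m + n) (x * y) := by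
  rcases hx with hx | hx
  · subst hx; simpa using kpaG_zero μ _
  rcases hy with hy | hy
  · subst hy; simpa using kpaG_zero μ _
  by_cases hx0 : x = 0
  · subst hx0; simpa using kpaG_zero μ _
  by_cases hy0 : y = 0
  · subst hy0; simpa using kpaG_zero μ _
  exact Or.inr (by rw [μ.ord_mul _ _ hx0 hy0]; omega)

lemma kpaE.mul {m n : ℤ} {x y : F} (hx : kpaE μ m x) (hy : kpaE μ n y) : kpaE μ (m + n) (x * y) :=
  ⟨mul_ne_zero hx.1 hy.1, by rw [μ.ord_mul _ _ hx.1 hy.1, hx.2, hy.2]⟩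

lemma kpaE.add {m n : ℤ} {x y : F} (hx : kpaE μ m x) (hy : kpaG μ n y) (h : m < n) :
    kpaE μ m (x + y) := by
  by_cases hy0 : y = 0
  · subst hy0; simpa using hx
  have hy' : n ≤ μ.ord y := by
    rcases hy with hy | hy
    · exact absurd hy hy0
    · exact hy
  have hlt : μ.ord x < μ.ord y := by rw [hx.2]; omega
  have hne : x + y ≠ 0 := by
    intro h0
    have : y = -x := by linear_combination h0
    rw [this, μ.ord_neg] at hlt
    exact lt_irrefl _ hlt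
  exact ⟨hne, by rw [μ.ord_add_of_lt hy0 hx.1 hlt, hx.2]⟩

lemma kpaG_int (n : ℤ) : kpaG μ 0 (n : F) := by
  by_cases h : (n : F) = 0
  · exact Or.inl h
  · exact Or.inr (μ.ord_intCast n)

lemma kpaE_of_ne {x : F} (h : x ≠ 0) : kpaE μ (μ.ord x) x := ⟨h, rfl⟩

lemma kpaE.unique {m n : ℤ} {x : F} (h : kpaE μ m x) (h' : kpaE μ n x) : m = n := by
  rw [← h.2, ← h'.2]

lemma kpaE.le_of_G {m n : ℤ} {x : F} (h : kpaE μ m x) (h' : kpaG μ n x) : n ≤ m := by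
  rcases h' with h' | h'
  · exact absurd h' h.1
  · rw [← h.2]; exact h'

/-- division -/
lemma kpaE_div {m k : ℤ} {s D S : F} (hD : kpaE μ m D) (h : s * D ^ 2 = S) (hS : kpaE μ k S) :
    kpaE μ (k - 2 * m) s := by
  have hs : s ≠ 0 := by
    intro h0
    rw [h0, zero_mul] at h
    exact hS.1 h.symm
  refine ⟨hs, ?_⟩
  have h1 : kpaE μ (μ.ord s + (m + m)) (s * (D * D)) := (kpaE_of_ne hs).mul (hD.mul hD)
  have h2 : s * (D * D) = S := by rw [← h]; ring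
  rw [h2] at h1
  have := h1.unique hS
  omega

lemma kpaG_div {m k : ℤ} {s D S : F} (hD : kpaE μ m D) (h : s * D ^ 2 = S) (hS : kpaG μ k S) :
    kpaG μ (k - 2 * m) s := by
  by_cases hs : s = 0
  · exact Or.inl hs
  right
  have h1 : kpaE μ (μ.ord s + (m + m)) (s * (D * D)) := (kpaE_of_ne hs).mul (hD.mul hD)
  have h2 : s * (D * D) = S := by rw [← h]; ring
  rw [h2] at h1
  have := h1.le_of_G hS
  omega

/-! ### Newton polygon -/

lemma kpa_N1' {m n : ℤ} {x y : F} (hs : kpaE μ m (x + y)) (hq : kpaG μ n (x * y)) (h : 2 * m < n) :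
    (kpaE μ m x ∧ kpaG μ (n - m) y) ∨ (kpaE μ m y ∧ kpaG μ (n - m) x) := by
  by_cases hx : x = 0
  · right
    subst hx
    exact ⟨by simpa using hs, kpaG_zero μ _⟩
  by_cases hy : y = 0
  · left
    subst hy
    exact ⟨by simpa using hs, kpaG_zero μ _⟩
  have hx' : kpaE μ (μ.ord x) x := ⟨hx, rfl⟩
  have hy' : kpaE μ (μ.ord y) y := ⟨hy, rfl⟩
  have hxy := (hx'.mul hy').le_of_G hq
  rcases lt_trichotomy (μ.ord x) (μ.ord y) with hlt | heq | hgt
  · have h1 := hx'.add (hy'.G le_rfl) hlt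
    have h2 := h1.unique hs
    left
    exact ⟨⟨hx, h2⟩, hy'.G (by omega)⟩
  · exfalso
    have h1 : kpaG μ (μ.ord x) (x + y) := (hx'.G le_rfl).add (hy'.G (by omega))
    have := hs.le_of_G h1
    omega
  · have h1 := hy'.add (hx'.G le_rfl) hgt
    rw [add_comm y x] at h1
    have h2 := h1.unique hs
    right
    exact ⟨⟨hy, h2⟩, hx'.G (by omega)⟩

lemma kpa_N1 {m n : ℤ} {x y : F} (hs : kpaE μ m (x + y)) (hq : kpaE μ n (x * y)) (h : 2 * m < n) :
    (kpaE μ m x ∧ kpaE μ (n - m) y) ∨ (kpaE μ m y ∧ kpaE μ (n - m) x) := by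
  have hx : x ≠ 0 := fun h0 => hq.1 (by rw [h0, zero_mul])
  have hy : y ≠ 0 := fun h0 => hq.1 (by rw [h0, mul_zero])
  have hv := ((kpaE_of_ne (μ := μ) hx).mul (kpaE_of_ne (μ := μ) hy)).unique hq
  rcases kpa_N1' hs (hq.G le_rfl) h with ⟨h1, _⟩ | ⟨h1, _⟩
  · left
    refine ⟨h1, hy, ?_⟩
    have := h1.2
    omega
  · right
    refine ⟨h1, hx, ?_⟩
    have := h1.2
    omega

lemma kpa_N2 {m n : ℤ} {x y : F} (hs : kpaG μ m (x + y)) (hq : kpaE μ n (x * y)) (h : n ≤ 2 * m) :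
    ∃ v, kpaE μ v x ∧ kpaE μ v y ∧ 2 * v = n := by
  have hx : x ≠ 0 := fun h0 => hq.1 (by rw [h0, zero_mul])
  have hy : y ≠ 0 := fun h0 => hq.1 (by rw [h0, mul_zero])
  have hx' : kpaE μ (μ.ord x) x := ⟨hx, rfl⟩
  have hy' : kpaE μ (μ.ord y) y := ⟨hy, rfl⟩
  have hv := (hx'.mul hy').unique hq
  rcases lt_trichotomy (μ.ord x) (μ.ord y) with hlt | heq | hgt
  · exfalso
    have h1 := hx'.add (hy'.G le_rfl) hlt
    have := h1.le_of_G hs
    omega
  · exact ⟨μ.ord x, hx', ⟨hy, heq.symm⟩, by omega⟩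
  · exfalso
    have h1 := hy'.add (hx'.G le_rfl) hgt
    rw [add_comm y x] at h1
    have := h1.le_of_G hs
    omega

lemma kpa_N3 {h n : ℤ} {x y : F} (hs : kpaG μ h (x + y)) (hq : kpaG μ n (x * y)) (hn : 2 * h ≤ n + 1) :
    kpaG μ h x ∧ kpaG μ h y := by
  by_cases hx : x = 0
  · subst hx
    exact ⟨kpaG_zero μ _, by simpa using hs⟩
  by_cases hy : y = 0
  · subst hy
    exact ⟨by simpa using hs, kpaG_zero μ _⟩
  have hx' : kpaE μ (μ.ord x) x := ⟨hx, rfl⟩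
  have hy' : kpaE μ (μ.ord y) y := ⟨hy, rfl⟩
  have hv := (hx'.mul hy').le_of_G hq
  rcases lt_trichotomy (μ.ord x) (μ.ord y) with hlt | heq | hgt
  · have h1 := hx'.add (hy'.G le_rfl) hlt
    have := h1.le_of_G hs
    exact ⟨hx'.G this, hy'.G (by omega)⟩
  · exact ⟨hx'.G (by omega), hy'.G (by omega)⟩
  · have h1 := hy'.add (hx'.G le_rfl) hgt
    rw [add_comm y x] at h1
    have := h1.le_of_G hs
    exact ⟨hx'.G (by omega), hy'.G (by omega)⟩

lemma kpa_N4 {n : ℤ} {x y : F} (hs : kpaG μ n (x + y)) (hq : kpaE μ n (x * y)) (hn : n ≤ 0) :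
    ∃ v w, kpaE μ v x ∧ kpaE μ w y ∧ v ≤ 0 ∧ w ≤ 0 := by
  have hx : x ≠ 0 := fun h0 => hq.1 (by rw [h0, zero_mul])
  have hy : y ≠ 0 := fun h0 => hq.1 (by rw [h0, mul_zero])
  have hx' : kpaE μ (μ.ord x) x := ⟨hx, rfl⟩
  have hy' : kpaE μ (μ.ord y) y := ⟨hy, rfl⟩
  have hv := (hx'.mul hy').unique hq
  refine ⟨_, _, hx', hy', ?_⟩
  rcases lt_trichotomy (μ.ord x) (μ.ord y) with hlt | heq | hgt
  · have h1 := hx'.add (hy'.G le_rfl) hlt
    have := h1.le_of_G hs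
    omega
  · omega
  · have h1 := hy'.add (hx'.G le_rfl) hgt
    rw [add_comm y x] at h1
    have := h1.le_of_G hs
    omega

/-! ### component function -/

lemma kpa_alp_E {N : ℕ} {w : ℤ} {x : F} (h : kpaE μ w x) :
    alpK μ N x = max 0 (min (w : ℝ) ((N : ℝ) / 2)) := by
  unfold alpK
  rw [if_neg h.1, h.2]

lemma kpa_alp_nonpos {N : ℕ} {w : ℤ} {x : F} (h : kpaE μ w x) (hw : w ≤ 0) : alpK μ N x = 0 := by
  rw [kpa_alp_E h]
  apply max_eq_left
  refine le_trans (min_le_left _ _) ?_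
  exact_mod_cast hw

lemma kpa_alp_mid {N : ℕ} {w : ℤ} {x : F} (h : kpaE μ w x) (hw : 0 ≤ w) (hw2 : 2 * w ≤ N) :
    alpK μ N x = w := by
  rw [kpa_alp_E h]
  have h1 : (0 : ℝ) ≤ w := by exact_mod_cast hw
  have h2 : (2 : ℝ) * w ≤ N := by exact_mod_cast hw2
  rw [min_eq_left (by linarith), max_eq_right h1]

lemma kpa_alp_top {N : ℕ} {w : ℤ} {x : F} (h : kpaG μ w x) (hw2 : (N : ℤ) ≤ 2 * w) :
    alpK μ N x = (N : ℝ) / 2 := by
  have h0 : (0 : ℝ) ≤ N := Nat.cast_nonneg N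
  unfold alpK
  split_ifs with hx
  · rfl
  · rcases h with h | h
    · exact absurd h hx
    · have h2 : (N : ℝ) ≤ 2 * (μ.ord x : ℝ) := by
        have : (N : ℤ) ≤ 2 * μ.ord x := by omega
        exact_mod_cast this
      rw [min_eq_right (by linarith), max_eq_right (by linarith)]

lemma kpa_class (N : ℕ) (x : F) :
    (∃ w : ℤ, w ≤ 0 ∧ kpaE μ w x) ∨ (∃ w : ℤ, 0 < w ∧ 2 * w < N ∧ kpaE μ w x) ∨
      kpaG μ (((N : ℤ) + 1) / 2) x := by
  by_cases hx : x = 0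
  · exact Or.inr (Or.inr (Or.inl hx))
  rcases le_or_gt (μ.ord x) 0 with h | h
  · exact Or.inl ⟨_, h, hx, rfl⟩
  rcases lt_or_ge (2 * μ.ord x) (N : ℤ) with h2 | h2
  · exact Or.inr (Or.inl ⟨_, h, h2, hx, rfl⟩)
  · right; right; right
    omega

/-! ### the cases -/

/-- the conclusion, as a symmetric relation -/
def kpaC (N : ℕ) (a1 a2 a3 a4 : ℝ) : Prop :=
  (a3 = |a1 - a2| ∧ a4 = min (a1 + a2) (N - (a1 + a2))) ∨
  (a4 = |a1 - a2| ∧ a3 = min (a1 + a2) (N - (a1 + a2)))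

lemma kpaC_symm {N : ℕ} {a1 a2 a3 a4 : ℝ} (h : kpaC N a1 a2 a3 a4) : kpaC N a2 a1 a3 a4 := by
  unfold kpaC at *
  rw [abs_sub_comm a2 a1, add_comm a2 a1]
  exact h

/-- (1) `0 < a1 < a2`, `2 a2 < N` -/
lemma kpa_case1 {N : ℕ} {c d e X1 X2 X3 X4 : F} (hc : kpaE μ 0 (4 * c)) (hd : kpaG μ N d)
    (he : kpaE μ N e)
    (hs : (X3 + X4) * (X1 - X2) ^ 2 = 2 * ((X1 + X2) * (d + X1 * X2) + 2 * c * X1 * X2 + 2 * e))
    (hq : X3 * X4 * (X1 - X2) ^ 2 = (X1 * X2 - d) ^ 2 - 4 * e * (X1 + X2 + c))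
    {a1 a2 : ℤ} (h1 : kpaE μ a1 X1) (h2 : kpaE μ a2 X2) (h01 : 0 < a1) (h12 : a1 < a2)
    (h2N : 2 * a2 < N) : kpaC N (alpK μ N X1) (alpK μ N X2) (alpK μ N X3) (alpK μ N X4) := by
  have hD : kpaE μ a1 (X1 - X2) := by
    have := h1.add (h2.G le_rfl).neg h12
    rwa [← sub_eq_add_neg] at this
  have h4 : kpaG μ 0 (4 : F) := by simpa using kpaG_int (μ := μ) 4
  have h2' : kpaG μ 0 (2 : F) := by simpa using kpaG_int (μ := μ) 2
  have hsum : kpaG μ a1 (X1 + X2) := (h1.G le_rfl).add (h2.G h12.le)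
  have hprod : kpaE μ (a1 + a2) (X1 * X2) := h1.mul h2
  have hT : kpaG μ (0 + (a1 + (a1 + a2))) (2 * ((X1 + X2) * (d + X1 * X2))) :=
    h2'.mul (hsum.mul ((hd.mono (by omega)).add (hprod.G le_rfl)))
  have h4e : kpaG μ (0 + (N : ℤ)) (4 * e) := h4.mul (he.G le_rfl)
  have hS : kpaE μ (0 + (a1 + a2))
      (2 * ((X1 + X2) * (d + X1 * X2) + 2 * c * X1 * X2 + 2 * e)) := by
    have h := (hc.mul hprod).add (n := a1 + a2 + 1)
      ((hT.mono (by omega)).add (h4e.mono (by omega))) (by omega)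
    have heq : 2 * ((X1 + X2) * (d + X1 * X2) + 2 * c * X1 * X2 + 2 * e) =
        4 * c * (X1 * X2) + (2 * ((X1 + X2) * (d + X1 * X2)) + 4 * e) := by ring
    rw [heq]; exact h
  have hs' := kpaE_div hD hs hS
  have hxd : kpaE μ (a1 + a2) (X1 * X2 - d) := by
    have := hprod.add hd.neg (by omega)
    rwa [← sub_eq_add_neg] at this
  have hsq : kpaE μ (a1 + a2 + (a1 + a2)) ((X1 * X2 - d) * (X1 * X2 - d)) := hxd.mul hxd
  have hmid : kpaG μ (0 + ((N : ℤ) + a1)) (4 * (e * (X1 + X2))) := h4.mul ((he.G le_rfl).mul hsum)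
  have hec : kpaE μ (N + 0) (e * (4 * c)) := he.mul hc
  have heqQ : (X1 * X2 - d) ^ 2 - 4 * e * (X1 + X2 + c) =
      (X1 * X2 - d) * (X1 * X2 - d) + (-(4 * (e * (X1 + X2))) + -(e * (4 * c))) := by ring
  have heqQ' : (X1 * X2 - d) ^ 2 - 4 * e * (X1 + X2 + c) =
      -(e * (4 * c)) + (-(4 * (e * (X1 + X2))) + (X1 * X2 - d) * (X1 * X2 - d)) := by ring
  have r01 : (0 : ℝ) < a1 := by exact_mod_cast h01
  have r12 : (a1 : ℝ) < a2 := by exact_mod_cast h12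
  have r2N : 2 * (a2 : ℝ) < N := by exact_mod_cast h2N
  have A1 : alpK μ N X1 = a1 := kpa_alp_mid h1 h01.le (by omega)
  have A2 : alpK μ N X2 = a2 := kpa_alp_mid h2 (by omega) (by omega)
  have habs : |(a1 : ℝ) - a2| = a2 - a1 := by
    rw [abs_sub_comm, abs_of_pos (by linarith)]
  rw [A1, A2]
  rcases lt_trichotomy (2 * (a1 + a2)) (N : ℤ) with hlt | heq | hgt
  · have hQ : kpaE μ (a1 + a2 + (a1 + a2)) ((X1 * X2 - d) ^ 2 - 4 * e * (X1 + X2 + c)) := by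
      rw [heqQ]
      exact hsq.add (n := a1 + a2 + (a1 + a2) + 1)
        ((hmid.neg.mono (by omega)).add ((hec.G le_rfl).neg.mono (by omega))) (by omega)
    have hq' := kpaE_div hD hq hQ
    have rlt : 2 * ((a1 : ℝ) + a2) < N := by exact_mod_cast hlt
    have hmin : min ((a1 : ℝ) + a2) (N - (a1 + a2)) = a1 + a2 := min_eq_left (by linarith)
    have hn : 0 + (a1 + a2) - 2 * a1 = a2 - a1 := by ring
    have hn2 : a1 + a2 + (a1 + a2) - 2 * a1 - (a2 - a1) = a1 + a2 := by ring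
    rw [hn] at hs'
    rcases kpa_N1 hs' hq' (by omega) with ⟨h3, h4⟩ | ⟨h3, h4⟩
    · rw [hn2] at h4
      left
      rw [kpa_alp_mid h3 (by omega) (by omega), kpa_alp_mid h4 (by omega) (by omega), habs, hmin]
      push_cast
      exact ⟨rfl, rfl⟩
    · rw [hn2] at h4
      right
      rw [kpa_alp_mid h3 (by omega) (by omega), kpa_alp_mid h4 (by omega) (by omega), habs, hmin]
      push_cast
      exact ⟨rfl, rfl⟩
  · have hQ : kpaG μ N ((X1 * X2 - d) ^ 2 - 4 * e * (X1 + X2 + c)) := by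
      rw [heqQ]
      exact (hsq.G (by omega)).add
        ((hmid.neg.mono (by omega)).add ((hec.G le_rfl).neg.mono (by omega)))
    have hq' := kpaG_div hD hq hQ
    have rlt : 2 * ((a1 : ℝ) + a2) = N := by exact_mod_cast heq
    have hmin : min ((a1 : ℝ) + a2) (N - (a1 + a2)) = (N : ℝ) / 2 := by
      rw [min_eq_left (by linarith)]; linarith
    have hn : 0 + (a1 + a2) - 2 * a1 = a2 - a1 := by ring
    rw [hn] at hs'
    rcases kpa_N1' hs' hq' (by omega) with ⟨h3, h4⟩ | ⟨h3, h4⟩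
    · left
      rw [kpa_alp_mid h3 (by omega) (by omega), kpa_alp_top h4 (by omega), habs, hmin]
      push_cast
      exact ⟨rfl, rfl⟩
    · right
      rw [kpa_alp_mid h3 (by omega) (by omega), kpa_alp_top h4 (by omega), habs, hmin]
      push_cast
      exact ⟨rfl, rfl⟩
  · have hQ : kpaE μ (N + 0) ((X1 * X2 - d) ^ 2 - 4 * e * (X1 + X2 + c)) := by
      rw [heqQ']
      exact hec.neg.add (n := N + 0 + 1)
        ((hmid.neg.mono (by omega)).add (hsq.G (by omega))) (by omega)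
    have hq' := kpaE_div hD hq hQ
    have rlt : (N : ℝ) < 2 * ((a1 : ℝ) + a2) := by exact_mod_cast hgt
    have hmin : min ((a1 : ℝ) + a2) (N - (a1 + a2)) = N - (a1 + a2) := min_eq_right (by linarith)
    have hn : 0 + (a1 + a2) - 2 * a1 = a2 - a1 := by ring
    have hn2 : (N : ℤ) + 0 - 2 * a1 - (a2 - a1) = N - (a1 + a2) := by ring
    rw [hn] at hs'
    rcases kpa_N1 hs' hq' (by omega) with ⟨h3, h4⟩ | ⟨h3, h4⟩
    · rw [hn2] at h4
      left
      rw [kpa_alp_mid h3 (by omega) (by omega), kpa_alp_mid h4 (by omega) (by omega), habs, hmin]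
      push_cast
      exact ⟨rfl, rfl⟩
    · rw [hn2] at h4
      right
      rw [kpa_alp_mid h3 (by omega) (by omega), kpa_alp_mid h4 (by omega) (by omega), habs, hmin]
      push_cast
      exact ⟨rfl, rfl⟩

/-- (2) `0 < a1`, `2 a1 < N`, `X2` on the top -/
lemma kpa_case2 {N : ℕ} {c d e X1 X2 X3 X4 : F} (hc : kpaE μ 0 (4 * c)) (hd : kpaG μ N d)
    (he : kpaE μ N e)
    (hs : (X3 + X4) * (X1 - X2) ^ 2 = 2 * ((X1 + X2) * (d + X1 * X2) + 2 * c * X1 * X2 + 2 * e))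
    (hq : X3 * X4 * (X1 - X2) ^ 2 = (X1 * X2 - d) ^ 2 - 4 * e * (X1 + X2 + c))
    {a1 h : ℤ} (h1 : kpaE μ a1 X1) (h2 : kpaG μ h X2) (h01 : 0 < a1) (h12 : 2 * a1 < N)
    (h2N : (N : ℤ) ≤ 2 * h) (hhN : h ≤ N) :
    kpaC N (alpK μ N X1) (alpK μ N X2) (alpK μ N X3) (alpK μ N X4) := by
  have hD : kpaE μ a1 (X1 - X2) := by
    have := h1.add h2.neg (by omega)
    rwa [← sub_eq_add_neg] at this
  have h4 : kpaG μ 0 (4 : F) := by simpa using kpaG_int (μ := μ) 4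
  have h2' : kpaG μ 0 (2 : F) := by simpa using kpaG_int (μ := μ) 2
  have hsum : kpaG μ a1 (X1 + X2) := (h1.G le_rfl).add (h2.mono (by omega))
  have hprod : kpaG μ (a1 + h) (X1 * X2) := (h1.G le_rfl).mul h2
  have hT : kpaG μ (0 + (a1 + h)) (2 * ((X1 + X2) * (d + X1 * X2))) :=
    h2'.mul (hsum.mul ((hd.mono (by omega)).add (hprod.mono (by omega))))
  have h4e : kpaG μ (0 + (N : ℤ)) (4 * e) := h4.mul (he.G le_rfl)
  have hS : kpaG μ (min (a1 + h) N)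
      (2 * ((X1 + X2) * (d + X1 * X2) + 2 * c * X1 * X2 + 2 * e)) := by
    have h := ((hc.G le_rfl).mul hprod).mono (m := min (a1 + h) N) (by omega) |>.add
      ((hT.mono (m := min (a1 + h) N) (by omega)).add
        (h4e.mono (m := min (a1 + h) N) (by omega)))
    have heq : 2 * ((X1 + X2) * (d + X1 * X2) + 2 * c * X1 * X2 + 2 * e) =
        4 * c * (X1 * X2) + (2 * ((X1 + X2) * (d + X1 * X2)) + 4 * e) := by ring
    rw [heq]; exact h
  have hs' := kpaG_div hD hs hS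
  have hxd : kpaG μ (min (a1 + h) N) (X1 * X2 - d) := by
    have := (hprod.mono (m := min (a1 + h) N) (by omega)).add
      (hd.neg.mono (m := min (a1 + h) N) (by omega))
    rwa [← sub_eq_add_neg] at this
  have hsq := hxd.mul hxd
  have hmid : kpaG μ (0 + ((N : ℤ) + a1)) (4 * (e * (X1 + X2))) := h4.mul ((he.G le_rfl).mul hsum)
  have hec : kpaE μ (N + 0) (e * (4 * c)) := he.mul hc
  have heqQ' : (X1 * X2 - d) ^ 2 - 4 * e * (X1 + X2 + c) =
      -(e * (4 * c)) + (-(4 * (e * (X1 + X2))) + (X1 * X2 - d) * (X1 * X2 - d)) := by ring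
  have hQ : kpaE μ (N + 0) ((X1 * X2 - d) ^ 2 - 4 * e * (X1 + X2 + c)) := by
    rw [heqQ']
    exact hec.neg.add (n := N + 0 + 1)
      ((hmid.neg.mono (by omega)).add (hsq.mono (by omega))) (by omega)
  have hq' := kpaE_div hD hq hQ
  obtain ⟨v, h3, h4, hv⟩ := kpa_N2 hs' hq' (by omega)
  have r01 : (0 : ℝ) < a1 := by exact_mod_cast h01
  have r12 : 2 * (a1 : ℝ) < N := by exact_mod_cast h12
  have rv : 2 * (v : ℝ) = N - 2 * a1 := by
    have : 2 * v = N - 2 * a1 := by omega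
    exact_mod_cast this
  have A1 : alpK μ N X1 = a1 := kpa_alp_mid h1 h01.le (by omega)
  have A2 : alpK μ N X2 = (N : ℝ) / 2 := kpa_alp_top h2 (by omega)
  have A3 : alpK μ N X3 = v := kpa_alp_mid h3 (by omega) (by omega)
  have A4 : alpK μ N X4 = v := kpa_alp_mid h4 (by omega) (by omega)
  rw [A1, A2, A3, A4]
  left
  constructor
  · rw [abs_sub_comm, abs_of_pos (by linarith)]; linarith
  · rw [min_eq_right (by linarith)]; linarith

/-- (3) both on the top -/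
lemma kpa_case3 {N : ℕ} {c d e X1 X2 X3 X4 : F} (hc : kpaE μ 0 (4 * c)) (hd : kpaG μ N d)
    (he : kpaE μ N e) (hne : X1 ≠ X2)
    (hs : (X3 + X4) * (X1 - X2) ^ 2 = 2 * ((X1 + X2) * (d + X1 * X2) + 2 * c * X1 * X2 + 2 * e))
    (hq : X3 * X4 * (X1 - X2) ^ 2 = (X1 * X2 - d) ^ 2 - 4 * e * (X1 + X2 + c))
    {h : ℤ} (h1 : kpaG μ h X1) (h2 : kpaG μ h X2) (h0 : 0 < h)
    (h2N : (N : ℤ) ≤ 2 * h) (hhN : h ≤ N) :
    kpaC N (alpK μ N X1) (alpK μ N X2) (alpK μ N X3) (alpK μ N X4) := by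
  have hD0 : X1 - X2 ≠ 0 := sub_ne_zero.mpr hne
  have hD := kpaE_of_ne (μ := μ) hD0
  have hDh : kpaG μ h (X1 - X2) := by
    have := h1.add h2.neg
    rwa [← sub_eq_add_neg] at this
  have hV := hD.le_of_G hDh
  have h4 : kpaG μ 0 (4 : F) := by simpa using kpaG_int (μ := μ) 4
  have h2' : kpaG μ 0 (2 : F) := by simpa using kpaG_int (μ := μ) 2
  have hsum : kpaG μ h (X1 + X2) := h1.add h2
  have hprod : kpaG μ (h + h) (X1 * X2) := h1.mul h2
  have hT : kpaG μ (0 + (h + N)) (2 * ((X1 + X2) * (d + X1 * X2))) :=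
    h2'.mul (hsum.mul (hd.add (hprod.mono (by omega))))
  have h4e : kpaG μ (0 + (N : ℤ)) (4 * e) := h4.mul (he.G le_rfl)
  have hS : kpaG μ N
      (2 * ((X1 + X2) * (d + X1 * X2) + 2 * c * X1 * X2 + 2 * e)) := by
    have h := ((hc.G le_rfl).mul hprod).mono (m := (N : ℤ)) (by omega) |>.add
      ((hT.mono (m := (N : ℤ)) (by omega)).add (h4e.mono (m := (N : ℤ)) (by omega)))
    have heq : 2 * ((X1 + X2) * (d + X1 * X2) + 2 * c * X1 * X2 + 2 * e) =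
        4 * c * (X1 * X2) + (2 * ((X1 + X2) * (d + X1 * X2)) + 4 * e) := by ring
    rw [heq]; exact h
  have hs' := kpaG_div hD hs hS
  have hxd : kpaG μ N (X1 * X2 - d) := by
    have := (hprod.mono (m := (N : ℤ)) (by omega)).add hd.neg
    rwa [← sub_eq_add_neg] at this
  have hsq := hxd.mul hxd
  have hmid : kpaG μ (0 + ((N : ℤ) + h)) (4 * (e * (X1 + X2))) := h4.mul ((he.G le_rfl).mul hsum)
  have hec : kpaE μ (N + 0) (e * (4 * c)) := he.mul hc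
  have heqQ' : (X1 * X2 - d) ^ 2 - 4 * e * (X1 + X2 + c) =
      -(e * (4 * c)) + (-(4 * (e * (X1 + X2))) + (X1 * X2 - d) * (X1 * X2 - d)) := by ring
  have hQ : kpaE μ (N + 0) ((X1 * X2 - d) ^ 2 - 4 * e * (X1 + X2 + c)) := by
    rw [heqQ']
    exact hec.neg.add (n := N + 0 + 1)
      ((hmid.neg.mono (by omega)).add (hsq.mono (by omega))) (by omega)
  have hq' := kpaE_div hD hq hQ
  rw [add_zero] at hq'
  obtain ⟨v, w, h3, h4, hv, hw⟩ := kpa_N4 hs' hq' (by omega)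
  rw [kpa_alp_top h1 h2N, kpa_alp_top h2 h2N, kpa_alp_nonpos h3 hv, kpa_alp_nonpos h4 hw]
  left
  constructor
  · simp
  · have : (0 : ℝ) ≤ N := Nat.cast_nonneg N
    rw [min_eq_right (by linarith)]; ring

/-- (4) `a1 ≤ 0 < a2`, `2 a2 < N` -/
lemma kpa_case4 {N : ℕ} {c d e X1 X2 X3 X4 : F} (hc : kpaE μ 0 (4 * c)) (hd : kpaG μ N d)
    (he : kpaE μ N e)
    (hs : (X3 + X4) * (X1 - X2) ^ 2 = 2 * ((X1 + X2) * (d + X1 * X2) + 2 * c * X1 * X2 + 2 * e))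
    (hq : X3 * X4 * (X1 - X2) ^ 2 = (X1 * X2 - d) ^ 2 - 4 * e * (X1 + X2 + c))
    {a1 a2 : ℤ} (h1 : kpaE μ a1 X1) (h2 : kpaE μ a2 X2) (h01 : a1 ≤ 0) (h12 : 0 < a2)
    (h2N : 2 * a2 < N) : kpaC N (alpK μ N X1) (alpK μ N X2) (alpK μ N X3) (alpK μ N X4) := by
  have hD : kpaE μ a1 (X1 - X2) := by
    have := h1.add (h2.G le_rfl).neg (by omega)
    rwa [← sub_eq_add_neg] at this
  have h4 : kpaG μ 0 (4 : F) := by simpa using kpaG_int (μ := μ) 4
  have h2' : kpaG μ 0 (2 : F) := by simpa using kpaG_int (μ := μ) 2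
  have hsum : kpaG μ a1 (X1 + X2) := (h1.G le_rfl).add (h2.G (by omega))
  have hprod : kpaE μ (a1 + a2) (X1 * X2) := h1.mul h2
  have hT : kpaG μ (0 + (a1 + (a1 + a2))) (2 * ((X1 + X2) * (d + X1 * X2))) :=
    h2'.mul (hsum.mul ((hd.mono (by omega)).add (hprod.G le_rfl)))
  have h4e : kpaG μ (0 + (N : ℤ)) (4 * e) := h4.mul (he.G le_rfl)
  have hS : kpaG μ (2 * a1 + a2)
      (2 * ((X1 + X2) * (d + X1 * X2) + 2 * c * X1 * X2 + 2 * e)) := by
    have h := ((hc.mul hprod).G (m := 2 * a1 + a2) (by omega)).add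
      ((hT.mono (by omega)).add (h4e.mono (by omega)))
    have heq : 2 * ((X1 + X2) * (d + X1 * X2) + 2 * c * X1 * X2 + 2 * e) =
        4 * c * (X1 * X2) + (2 * ((X1 + X2) * (d + X1 * X2)) + 4 * e) := by ring
    rw [heq]; exact h
  have hs' := kpaG_div hD hs hS
  have hxd : kpaE μ (a1 + a2) (X1 * X2 - d) := by
    have := hprod.add hd.neg (by omega)
    rwa [← sub_eq_add_neg] at this
  have hsq : kpaE μ (a1 + a2 + (a1 + a2)) ((X1 * X2 - d) * (X1 * X2 - d)) := hxd.mul hxd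
  have hmid : kpaG μ (0 + ((N : ℤ) + a1)) (4 * (e * (X1 + X2))) := h4.mul ((he.G le_rfl).mul hsum)
  have hec : kpaE μ (N + 0) (e * (4 * c)) := he.mul hc
  have heqQ : (X1 * X2 - d) ^ 2 - 4 * e * (X1 + X2 + c) =
      (X1 * X2 - d) * (X1 * X2 - d) + (-(4 * (e * (X1 + X2))) + -(e * (4 * c))) := by ring
  have hQ : kpaE μ (a1 + a2 + (a1 + a2)) ((X1 * X2 - d) ^ 2 - 4 * e * (X1 + X2 + c)) := by
    rw [heqQ]
    exact hsq.add (n := a1 + a2 + (a1 + a2) + 1)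
      ((hmid.neg.mono (by omega)).add ((hec.G le_rfl).neg.mono (by omega))) (by omega)
  have hq' := kpaE_div hD hq hQ
  obtain ⟨v, h3, h4, hv⟩ := kpa_N2 hs' hq' (by omega)
  have hv2 : v = a2 := by omega
  subst hv2
  have r12 : (0 : ℝ) < v := by exact_mod_cast h12
  have r2N : 2 * (v : ℝ) < N := by exact_mod_cast h2N
  rw [kpa_alp_nonpos h1 h01, kpa_alp_mid h2 h12.le h2N.le, kpa_alp_mid h3 h12.le h2N.le,
    kpa_alp_mid h4 h12.le h2N.le]
  left
  constructor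
  · rw [zero_sub, abs_neg, abs_of_pos r12]
  · rw [zero_add, min_eq_left (by linarith)]

/-- (5) `a1 ≤ 0`, `X2` on the top -/
lemma kpa_case5 {N : ℕ} {c d e X1 X2 X3 X4 : F} (hc : kpaE μ 0 (4 * c)) (hd : kpaG μ N d)
    (he : kpaE μ N e)
    (hs : (X3 + X4) * (X1 - X2) ^ 2 = 2 * ((X1 + X2) * (d + X1 * X2) + 2 * c * X1 * X2 + 2 * e))
    (hq : X3 * X4 * (X1 - X2) ^ 2 = (X1 * X2 - d) ^ 2 - 4 * e * (X1 + X2 + c))
    {a1 h : ℤ} (h1 : kpaE μ a1 X1) (h2 : kpaG μ h X2) (h01 : a1 ≤ 0) (h0 : 0 < h)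
    (h2N : (N : ℤ) ≤ 2 * h) (hhN : 2 * h ≤ N + 1) :
    kpaC N (alpK μ N X1) (alpK μ N X2) (alpK μ N X3) (alpK μ N X4) := by
  have hD : kpaE μ a1 (X1 - X2) := by
    have := h1.add h2.neg (by omega)
    rwa [← sub_eq_add_neg] at this
  have h4 : kpaG μ 0 (4 : F) := by simpa using kpaG_int (μ := μ) 4
  have h2' : kpaG μ 0 (2 : F) := by simpa using kpaG_int (μ := μ) 2
  have hsum : kpaG μ a1 (X1 + X2) := (h1.G le_rfl).add (h2.mono (by omega))
  have hprod : kpaG μ (a1 + h) (X1 * X2) := (h1.G le_rfl).mul h2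
  have hT : kpaG μ (0 + (a1 + (a1 + h))) (2 * ((X1 + X2) * (d + X1 * X2))) :=
    h2'.mul (hsum.mul ((hd.mono (by omega)).add (hprod.mono (by omega))))
  have h4e : kpaG μ (0 + (N : ℤ)) (4 * e) := h4.mul (he.G le_rfl)
  have hS : kpaG μ (2 * a1 + h)
      (2 * ((X1 + X2) * (d + X1 * X2) + 2 * c * X1 * X2 + 2 * e)) := by
    have h := ((hc.G le_rfl).mul hprod).mono (m := 2 * a1 + h) (by omega) |>.add
      ((hT.mono (m := 2 * a1 + h) (by omega)).add (h4e.mono (m := 2 * a1 + h) (by omega)))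
    have heq : 2 * ((X1 + X2) * (d + X1 * X2) + 2 * c * X1 * X2 + 2 * e) =
        4 * c * (X1 * X2) + (2 * ((X1 + X2) * (d + X1 * X2)) + 4 * e) := by ring
    rw [heq]; exact h
  have hs' := kpaG_div hD hs hS
  have hxd : kpaG μ (a1 + h) (X1 * X2 - d) := by
    have := hprod.add (hd.neg.mono (m := a1 + h) (by omega))
    rwa [← sub_eq_add_neg] at this
  have hsq := hxd.mul hxd
  have hmid : kpaG μ (0 + ((N : ℤ) + a1)) (4 * (e * (X1 + X2))) := h4.mul ((he.G le_rfl).mul hsum)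
  have hec : kpaE μ (N + 0) (e * (4 * c)) := he.mul hc
  have heqQ' : (X1 * X2 - d) ^ 2 - 4 * e * (X1 + X2 + c) =
      -(e * (4 * c)) + (-(4 * (e * (X1 + X2))) + (X1 * X2 - d) * (X1 * X2 - d)) := by ring
  have hQ : kpaG μ (N + 2 * a1) ((X1 * X2 - d) ^ 2 - 4 * e * (X1 + X2 + c)) := by
    rw [heqQ']
    exact (hec.neg.G (by omega)).add
      ((hmid.neg.mono (by omega)).add (hsq.mono (by omega)))
  have hq' := kpaG_div hD hq hQ
  have hq'' : kpaG μ N (X3 * X4) := hq'.mono (by omega)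
  have hs'' : kpaG μ h (X3 + X4) := hs'.mono (by omega)
  obtain ⟨h3, h4⟩ := kpa_N3 hs'' hq'' (by omega)
  rw [kpa_alp_nonpos h1 h01, kpa_alp_top h2 h2N, kpa_alp_top h3 h2N, kpa_alp_top h4 h2N]
  have : (0 : ℝ) ≤ N := Nat.cast_nonneg N
  left
  constructor
  · rw [zero_sub, abs_neg, abs_of_nonneg (by linarith)]
  · rw [zero_add, min_eq_left (by linarith)]

/-- (6) `a1 = a2` in the interior -/
lemma kpa_case6 {N : ℕ} {c d e X1 X2 X3 X4 : F} (hc : kpaE μ 0 (4 * c)) (hd : kpaG μ N d)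
    (he : kpaE μ N e) (hne : X1 ≠ X2)
    (hs : (X3 + X4) * (X1 - X2) ^ 2 = 2 * ((X1 + X2) * (d + X1 * X2) + 2 * c * X1 * X2 + 2 * e))
    (hq : X3 * X4 * (X1 - X2) ^ 2 = (X1 * X2 - d) ^ 2 - 4 * e * (X1 + X2 + c))
    {w : ℤ} (h1 : kpaE μ w X1) (h2 : kpaE μ w X2) (h0 : 0 < w)
    (h2N : 2 * w < N) : kpaC N (alpK μ N X1) (alpK μ N X2) (alpK μ N X3) (alpK μ N X4) := by
  have hD0 : X1 - X2 ≠ 0 := sub_ne_zero.mpr hne
  have hD := kpaE_of_ne (μ := μ) hD0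
  have hDw : kpaG μ w (X1 - X2) := by
    have := (h1.G le_rfl).add (h2.G le_rfl).neg
    rwa [← sub_eq_add_neg] at this
  have hV := hD.le_of_G hDw
  obtain ⟨t, ht⟩ : ∃ t : ℤ, μ.ord (X1 - X2) = w + t := ⟨μ.ord (X1 - X2) - w, by ring⟩
  rw [ht] at hD hV
  have h4 : kpaG μ 0 (4 : F) := by simpa using kpaG_int (μ := μ) 4
  have h2' : kpaG μ 0 (2 : F) := by simpa using kpaG_int (μ := μ) 2
  have hsum : kpaG μ w (X1 + X2) := (h1.G le_rfl).add (h2.G le_rfl)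
  have hprod : kpaE μ (w + w) (X1 * X2) := h1.mul h2
  have hT : kpaG μ (0 + (w + (w + w))) (2 * ((X1 + X2) * (d + X1 * X2))) :=
    h2'.mul (hsum.mul ((hd.mono (by omega)).add (hprod.G le_rfl)))
  have h4e : kpaG μ (0 + (N : ℤ)) (4 * e) := h4.mul (he.G le_rfl)
  have hS : kpaE μ (0 + (w + w))
      (2 * ((X1 + X2) * (d + X1 * X2) + 2 * c * X1 * X2 + 2 * e)) := by
    have h := (hc.mul hprod).add (n := w + w + 1)
      ((hT.mono (by omega)).add (h4e.mono (by omega))) (by omega)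
    have heq : 2 * ((X1 + X2) * (d + X1 * X2) + 2 * c * X1 * X2 + 2 * e) =
        4 * c * (X1 * X2) + (2 * ((X1 + X2) * (d + X1 * X2)) + 4 * e) := by ring
    rw [heq]; exact h
  have hs' := kpaE_div hD hs hS
  have hn : 0 + (w + w) - 2 * (w + t) = -(2 * t) := by ring
  rw [hn] at hs'
  have hxd : kpaE μ (w + w) (X1 * X2 - d) := by
    have := hprod.add hd.neg (by omega)
    rwa [← sub_eq_add_neg] at this
  have hsq : kpaE μ (w + w + (w + w)) ((X1 * X2 - d) * (X1 * X2 - d)) := hxd.mul hxd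
  have hmid : kpaG μ (0 + ((N : ℤ) + w)) (4 * (e * (X1 + X2))) := h4.mul ((he.G le_rfl).mul hsum)
  have hec : kpaE μ (N + 0) (e * (4 * c)) := he.mul hc
  have heqQ : (X1 * X2 - d) ^ 2 - 4 * e * (X1 + X2 + c) =
      (X1 * X2 - d) * (X1 * X2 - d) + (-(4 * (e * (X1 + X2))) + -(e * (4 * c))) := by ring
  have heqQ' : (X1 * X2 - d) ^ 2 - 4 * e * (X1 + X2 + c) =
      -(e * (4 * c)) + (-(4 * (e * (X1 + X2))) + (X1 * X2 - d) * (X1 * X2 - d)) := by ring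
  have r0 : (0 : ℝ) < w := by exact_mod_cast h0
  have r2N : 2 * (w : ℝ) < N := by exact_mod_cast h2N
  rw [kpa_alp_mid h1 h0.le h2N.le, kpa_alp_mid h2 h0.le h2N.le]
  rcases lt_trichotomy (4 * w) (N : ℤ) with hlt | heq | hgt
  · have hQ : kpaE μ (w + w + (w + w)) ((X1 * X2 - d) ^ 2 - 4 * e * (X1 + X2 + c)) := by
      rw [heqQ]
      exact hsq.add (n := w + w + (w + w) + 1)
        ((hmid.neg.mono (by omega)).add ((hec.G le_rfl).neg.mono (by omega))) (by omega)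
    have hq' := kpaE_div hD hq hQ
    have rlt : 4 * (w : ℝ) < N := by exact_mod_cast hlt
    have hmin : min ((w : ℝ) + w) (N - (w + w)) = w + w := min_eq_left (by linarith)
    have hn2 : w + w + (w + w) - 2 * (w + t) - -(2 * t) = w + w := by ring
    rcases kpa_N1 hs' hq' (by omega) with ⟨h3, h4⟩ | ⟨h3, h4⟩
    · rw [hn2] at h4
      left
      rw [kpa_alp_nonpos h3 (by omega), kpa_alp_mid h4 (by omega) (by omega), hmin]
      push_cast
      exact ⟨by simp, rfl⟩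
    · rw [hn2] at h4
      right
      rw [kpa_alp_nonpos h3 (by omega), kpa_alp_mid h4 (by omega) (by omega), hmin]
      push_cast
      exact ⟨by simp, rfl⟩
  · have hQ : kpaG μ N ((X1 * X2 - d) ^ 2 - 4 * e * (X1 + X2 + c)) := by
      rw [heqQ]
      exact (hsq.G (by omega)).add
        ((hmid.neg.mono (by omega)).add ((hec.G le_rfl).neg.mono (by omega)))
    have hq' := kpaG_div hD hq hQ
    have rlt : 4 * (w : ℝ) = N := by exact_mod_cast heq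
    have hmin : min ((w : ℝ) + w) (N - (w + w)) = (N : ℝ) / 2 := by
      rw [min_eq_left (by linarith)]; linarith
    rcases kpa_N1' hs' hq' (by omega) with ⟨h3, h4⟩ | ⟨h3, h4⟩
    · left
      rw [kpa_alp_nonpos h3 (by omega), kpa_alp_top h4 (by omega), hmin]
      exact ⟨by simp, rfl⟩
    · right
      rw [kpa_alp_nonpos h3 (by omega), kpa_alp_top h4 (by omega), hmin]
      exact ⟨by simp, rfl⟩
  · have hQ : kpaE μ (N + 0) ((X1 * X2 - d) ^ 2 - 4 * e * (X1 + X2 + c)) := by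
      rw [heqQ']
      exact hec.neg.add (n := N + 0 + 1)
        ((hmid.neg.mono (by omega)).add (hsq.G (by omega))) (by omega)
    have hq' := kpaE_div hD hq hQ
    have rlt : (N : ℝ) < 4 * (w : ℝ) := by exact_mod_cast hgt
    have hmin : min ((w : ℝ) + w) (N - (w + w)) = N - (w + w) := min_eq_right (by linarith)
    have hn2 : (N : ℤ) + 0 - 2 * (w + t) - -(2 * t) = N - (w + w) := by ring
    rcases kpa_N1 hs' hq' (by omega) with ⟨h3, h4⟩ | ⟨h3, h4⟩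
    · rw [hn2] at h4
      left
      rw [kpa_alp_nonpos h3 (by omega), kpa_alp_mid h4 (by omega) (by omega), hmin]
      push_cast
      exact ⟨by simp, rfl⟩
    · rw [hn2] at h4
      right
      rw [kpa_alp_nonpos h3 (by omega), kpa_alp_mid h4 (by omega) (by omega), hmin]
      push_cast
      exact ⟨by simp, rfl⟩

lemma kpa_G_of_le {n : ℤ} {x : F} (h : μ.nr x ≤ μ.q ^ (-n)) : kpaG μ n x := by
  by_cases hx : x = 0
  · exact Or.inl hx
  · exact Or.inr ((μ.nr_le_zpow_iff hx n).1 h)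

lemma kpa_E_of_eq {n : ℤ} {x : F} (h : μ.nr x = μ.q ^ (-n)) : kpaE μ n x := by
  have hx : x ≠ 0 := by
    intro h0
    rw [h0, μ.nr_zero] at h
    have : (0 : ℝ) < μ.q ^ (-n) := zpow_pos μ.q_pos _
    linarith
  exact ⟨hx, (μ.nr_eq_zpow_iff hx n).1 h⟩

theorem st_KPA : ST_KPA := by
  intro F _ _ μ N hN c d e hc hd he X1 X2 X3 X4 hne hs hq hpos
  have hc' : kpaE μ 0 (4 * c) := kpa_E_of_eq (by rw [hc]; simp)
  have hd' : kpaG μ N d := kpa_G_of_le hd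
  have he' : kpaE μ N e := kpa_E_of_eq he
  have hh0 : 0 < ((N : ℤ) + 1) / 2 := by omega
  have hh1 : (N : ℤ) ≤ 2 * (((N : ℤ) + 1) / 2) := by omega
  have hh2 : 2 * (((N : ℤ) + 1) / 2) ≤ N + 1 := by omega
  have hh3 : ((N : ℤ) + 1) / 2 ≤ N := by omega
  have hs2 : (X3 + X4) * (X2 - X1) ^ 2 =
      2 * ((X2 + X1) * (d + X2 * X1) + 2 * c * X2 * X1 + 2 * e) := by
    have h1 : (X2 - X1) ^ 2 = (X1 - X2) ^ 2 := by ring
    rw [h1, hs]; ring
  have hq2 : X3 * X4 * (X2 - X1) ^ 2 = (X2 * X1 - d) ^ 2 - 4 * e * (X2 + X1 + c) := by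
    have h1 : (X2 - X1) ^ 2 = (X1 - X2) ^ 2 := by ring
    rw [h1, hq]; ring
  change kpaC N (alpK μ N X1) (alpK μ N X2) (alpK μ N X3) (alpK μ N X4)
  rcases kpa_class (μ := μ) N X1 with ⟨w1, hw1, h1⟩ | ⟨w1, hw1, hw1', h1⟩ | h1
  · rcases kpa_class (μ := μ) N X2 with ⟨w2, hw2, h2⟩ | ⟨w2, hw2, hw2', h2⟩ | h2
    · exfalso
      rw [kpa_alp_nonpos h1 hw1, kpa_alp_nonpos h2 hw2] at hpos
      rcases hpos with h | h <;> exact lt_irrefl _ h
    · exact kpa_case4 hc' hd' he' hs hq h1 h2 hw1 hw2 hw2'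
    · exact kpa_case5 hc' hd' he' hs hq h1 h2 hw1 hh0 hh1 hh2
  · rcases kpa_class (μ := μ) N X2 with ⟨w2, hw2, h2⟩ | ⟨w2, hw2, hw2', h2⟩ | h2
    · exact kpaC_symm (kpa_case4 hc' hd' he' hs2 hq2 h2 h1 hw2 hw1 hw1')
    · rcases lt_trichotomy w1 w2 with h | h | h
      · exact kpa_case1 hc' hd' he' hs hq h1 h2 hw1 h hw2'
      · subst h
        exact kpa_case6 hc' hd' he' hne hs hq h1 h2 hw1 hw1'
      · exact kpaC_symm (kpa_case1 hc' hd' he' hs2 hq2 h2 h1 hw2 h hw1')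
    · exact kpa_case2 hc' hd' he' hs hq h1 h2 hw1 hw1' hh1 hh3
  · rcases kpa_class (μ := μ) N X2 with ⟨w2, hw2, h2⟩ | ⟨w2, hw2, hw2', h2⟩ | h2
    · exact kpaC_symm (kpa_case5 hc' hd' he' hs2 hq2 h2 h1 hw2 hh0 hh1 hh2)
    · exact kpaC_symm (kpa_case2 hc' hd' he' hs2 hq2 h2 h1 hw2 hw2' hh1 hh3)
    · exact kpa_case3 hc' hd' he' hne hs hq h1 h2 hh0 hh1 hh3

end Pool.Agent.Helper42.LK
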