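import Pool.Agent.Helper42.LK.Defs

open Filter Topology

namespace Pool.Agent.Helper42.LK

open Pool.Agent.Helper42.LS

variable {F : Type} [Field F]

/-- valuation at least `n` -/
def kpdGe (μ : DV F) (n : ℤ) (x : F) : Prop := x = 0 ∨ n ≤ μ.ord x

/-- valuation exactly `n` -/
def kpdEq (μ : DV F) (n : ℤ) (x : F) : Prop := x ≠ 0 ∧ μ.ord x = n

theorem kpd_ge_of_eq {μ : DV F} {n : ℤ} {x : F} (h : kpdEq μ n x) : kpdGe μ n x := Or.inr h.2.ge

theorem kpd_ge_mono {μ : DV F} {m n : ℤ} {x : F} (h : kpdGe μ n x) (hmn : m ≤ n) : kpdGe μ m x := by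
  rcases h with h | h
  · exact Or.inl h
  · exact Or.inr (hmn.trans h)

theorem kpd_eq_self {μ : DV F} {x : F} (h : x ≠ 0) : kpdEq μ (μ.ord x) x := ⟨h, rfl⟩

theorem kpd_eq_cast {μ : DV F} {m n : ℤ} {x : F} (h : kpdEq μ n x) (hmn : n = m) : kpdEq μ m x :=
  hmn ▸ h

theorem kpd_eq_unique {μ : DV F} {m n : ℤ} {x : F} (h : kpdEq μ n x) (h' : kpdEq μ m x) : m = n :=
  h'.2.symm.trans h.2

theorem kpd_ge_add {μ : DV F} {n : ℤ} {x y : F} (hx : kpdGe μ n x) (hy : kpdGe μ n y) :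
    kpdGe μ n (x + y) := by
  by_cases h0 : x + y = 0
  · exact Or.inl h0
  rcases hx with hx | hx
  · subst hx
    rw [zero_add]
    exact hy
  rcases hy with hy | hy
  · subst hy
    rw [add_zero]
    exact Or.inr hx
  exact Or.inr ((le_min hx hy).trans (μ.min_le_ord_add h0))

theorem kpd_ge_neg {μ : DV F} {n : ℤ} {x : F} (hx : kpdGe μ n x) : kpdGe μ n (-x) := by
  rcases hx with hx | hx
  · left
    rw [hx, neg_zero]
  · right
    rw [μ.ord_neg]
    exact hx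

theorem kpd_eq_neg {μ : DV F} {n : ℤ} {x : F} (hx : kpdEq μ n x) : kpdEq μ n (-x) :=
  ⟨neg_ne_zero.mpr hx.1, by rw [μ.ord_neg]; exact hx.2⟩

theorem kpd_ge_sub {μ : DV F} {n : ℤ} {x y : F} (hx : kpdGe μ n x) (hy : kpdGe μ n y) :
    kpdGe μ n (x - y) := by
  rw [sub_eq_add_neg]
  exact kpd_ge_add hx (kpd_ge_neg hy)

theorem kpd_ge_mul {μ : DV F} {m n : ℤ} {x y : F} (hx : kpdGe μ m x) (hy : kpdGe μ n y) :
    kpdGe μ (m + n) (x * y) := by
  rcases hx with hx | hx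
  · left
    rw [hx, zero_mul]
  rcases hy with hy | hy
  · left
    rw [hy, mul_zero]
  by_cases hx0 : x = 0
  · left
    rw [hx0, zero_mul]
  by_cases hy0 : y = 0
  · left
    rw [hy0, mul_zero]
  right
  rw [μ.ord_mul _ _ hx0 hy0]
  exact add_le_add hx hy

theorem kpd_eq_mul {μ : DV F} {m n : ℤ} {x y : F} (hx : kpdEq μ m x) (hy : kpdEq μ n y) :
    kpdEq μ (m + n) (x * y) := by
  refine ⟨mul_ne_zero hx.1 hy.1, ?_⟩
  rw [μ.ord_mul _ _ hx.1 hy.1, hx.2, hy.2]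

theorem kpd_eq_of_mul {μ : DV F} {m n : ℤ} {x y : F} (h : kpdEq μ n (x * y))
    (hy : kpdEq μ m y) : kpdEq μ (n - m) x := by
  have hx0 : x ≠ 0 := fun h0 => h.1 (by rw [h0, zero_mul])
  refine ⟨hx0, ?_⟩
  have := h.2
  rw [μ.ord_mul _ _ hx0 hy.1, hy.2] at this
  omega

theorem kpd_ge_of_mul {μ : DV F} {m n : ℤ} {x y : F} (h : kpdGe μ n (x * y))
    (hy : kpdEq μ m y) : kpdGe μ (n - m) x := by
  by_cases hx0 : x = 0
  · exact Or.inl hx0
  rcases h with h | h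
  · exact absurd h (mul_ne_zero hx0 hy.1)
  right
  rw [μ.ord_mul _ _ hx0 hy.1, hy.2] at h
  omega

theorem kpd_eq_add {μ : DV F} {n : ℤ} {x y : F} (hx : kpdEq μ n x)
    (hy : kpdGe μ (n + 1) y) : kpdEq μ n (x + y) := by
  have h0 : x + y ≠ 0 := by
    intro h0
    have hyx : y = -x := by linear_combination h0
    rcases hy with hy | hy
    · exact hx.1 (by rw [hyx] at hy; exact neg_eq_zero.1 hy)
    · rw [hyx, μ.ord_neg, hx.2] at hy
      omega
  refine ⟨h0, le_antisymm ?_ ?_⟩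
  · by_contra hcon
    push Not at hcon
    have h1 : kpdGe μ (n + 1) (x + y) := Or.inr (by omega)
    have h2 : kpdGe μ (n + 1) x := by
      have := kpd_ge_sub h1 hy
      rwa [add_sub_cancel_right] at this
    rcases h2 with h2 | h2
    · exact hx.1 h2
    · rw [hx.2] at h2
      omega
  · rcases kpd_ge_add (kpd_ge_of_eq hx) (kpd_ge_mono hy (by omega : n ≤ n + 1)) with h | h
    · exact absurd h h0
    · exact h

theorem kpd_eq_sub {μ : DV F} {n : ℤ} {x y : F} (hx : kpdEq μ n x)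
    (hy : kpdGe μ (n + 1) y) : kpdEq μ n (x - y) := by
  rw [sub_eq_add_neg]
  exact kpd_eq_add hx (kpd_ge_neg hy)

theorem kpd_ge_int (μ : DV F) (z : ℤ) : kpdGe μ 0 (z : F) := by
  right
  exact μ.ord_intCast z

theorem kpd_ge_sq {μ : DV F} {n : ℤ} {x : F} (hx : kpdGe μ n x) :
    kpdGe μ (2 * n) (x ^ 2) := by
  have := kpd_ge_mul hx hx
  rw [sq, two_mul]
  exact this

theorem kpd_eq_sq {μ : DV F} {n : ℤ} {x : F} (hx : kpdEq μ n x) :
    kpdEq μ (2 * n) (x ^ 2) := by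
  have := kpd_eq_mul hx hx
  rw [sq, two_mul]
  exact this

theorem kpd_ge_cube {μ : DV F} {n : ℤ} {x : F} (hx : kpdGe μ n x) :
    kpdGe μ (3 * n) (x ^ 3) := by
  have := kpd_ge_mul (kpd_ge_sq hx) hx
  rw [show x ^ 3 = x ^ 2 * x by ring, show 3 * n = 2 * n + n by ring]
  exact this

/-! ### the norm -/

theorem kpd_nr_of_eq {μ : DV F} {n : ℤ} {x : F} (hx : kpdEq μ n x) : μ.nr x = μ.q ^ (-n) := by
  rw [μ.nr_of_ne hx.1, hx.2]

theorem kpd_nr_le {μ : DV F} {n : ℤ} {x : F} : μ.nr x ≤ μ.q ^ (-n) ↔ kpdGe μ n x := by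
  by_cases hx : x = 0
  · subst hx
    rw [μ.nr_zero]
    exact ⟨fun _ => Or.inl rfl, fun _ => (zpow_pos μ.q_pos _).le⟩
  · rw [μ.nr_le_zpow_iff hx]
    exact ⟨fun h => Or.inr h, fun h => h.resolve_left hx⟩

theorem kpd_nr_iff {μ : DV F} {n : ℤ} {x : F} : μ.nr x = μ.q ^ (-n) ↔ kpdEq μ n x := by
  refine ⟨fun h => ?_, fun h => kpd_nr_of_eq h⟩
  have hx : x ≠ 0 := by
    intro h0
    rw [h0, μ.nr_zero] at h
    have : (0 : ℝ) < μ.q ^ (-n) := zpow_pos μ.q_pos _
    linarith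
  exact ⟨hx, (μ.nr_eq_zpow_iff hx n).1 h⟩

theorem kpd_log_nr {μ : DV F} {n : ℤ} {x : F} (hx : kpdEq μ n x) :
    Real.log (μ.nr x) = -(n : ℝ) * Real.log μ.q := by
  rw [kpd_nr_of_eq hx, Real.log_zpow]
  push_cast
  ring

theorem kpd_logmax_neg {μ : DV F} {n : ℤ} {x : F} (hx : kpdEq μ n x) (hn : n ≤ 0) :
    Real.log (max (μ.nr x) 1) = -(n : ℝ) * Real.log μ.q := by
  rw [max_eq_left, kpd_log_nr hx]
  rw [kpd_nr_of_eq hx]
  exact one_le_zpow₀ μ.one_lt_q.le (by omega)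

theorem kpd_logmax_pos {μ : DV F} {x : F} (hx : kpdGe μ 0 x) :
    Real.log (max (μ.nr x) 1) = 0 := by
  rw [max_eq_right, Real.log_one]
  have := kpd_nr_le.mpr hx
  simpa using this

/-! ### the component function -/

theorem kpd_alp_nonpos {μ : DV F} {N : ℕ} {n : ℤ} {x : F} (hx : kpdEq μ n x) (hn : n ≤ 0) :
    alpK μ N x = 0 := by
  unfold alpK
  rw [if_neg hx.1, hx.2]
  have h1 : (n : ℝ) ≤ 0 := by exact_mod_cast hn
  exact max_eq_left ((min_le_left _ _).trans h1)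

theorem kpd_alp_mid {μ : DV F} {N : ℕ} {n : ℤ} {x : F} (hx : kpdEq μ n x) (hn : 0 ≤ n) (hN : 2 * n ≤ N) :
    alpK μ N x = n := by
  unfold alpK
  rw [if_neg hx.1, hx.2]
  have h1 : (0 : ℝ) ≤ (n : ℝ) := by exact_mod_cast hn
  have h2 : (2 : ℝ) * n ≤ N := by exact_mod_cast hN
  rw [min_eq_left (by linarith), max_eq_right h1]

theorem kpd_alp_big {μ : DV F} {N : ℕ} {n : ℤ} {x : F} (hx : kpdGe μ n x) (hN : (N : ℤ) ≤ 2 * n) :
    alpK μ N x = N / 2 := by
  unfold alpK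
  by_cases h0 : x = 0
  · rw [if_pos h0]
  rw [if_neg h0]
  rcases hx with hx | hx
  · exact absurd hx h0
  have h2 : (N : ℝ) ≤ 2 * (μ.ord x : ℝ) := by exact_mod_cast (by omega : (N : ℤ) ≤ 2 * μ.ord x)
  have h3 : (0 : ℝ) ≤ (N : ℝ) := by positivity
  rw [min_eq_right (by linarith), max_eq_right (by linarith)]

omit [Field F] in
theorem st_KPD : ST_KPD := by
  intro F _ _ μ N hN c d e hc hd he X X' hG hX'
  have hc' : kpdEq μ 0 (4 * c) := kpd_nr_iff.mp (by simpa using hc)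
  have hd' : kpdGe μ N d := kpd_nr_le.mp hd
  have he' : kpdEq μ N e := kpd_nr_iff.mp he
  have hNz : (1 : ℤ) ≤ N := by exact_mod_cast hN
  have h4 : kpdGe μ 0 (4 : F) := by exact_mod_cast kpd_ge_int μ 4
  have h8 : kpdGe μ 0 (8 : F) := by exact_mod_cast kpd_ge_int μ 8
  have hnum : (X ^ 2 - d) ^ 2 - 4 * e * (2 * X + c) = ((X ^ 2 - d) ^ 2 - 8 * (e * X)) - (4 * c) * e := by
    ring
  have hden : 4 * (X ^ 3 + c * X ^ 2 + d * X + e)
      = (4 * c) * X ^ 2 + (4 * X ^ 3 + 4 * (d * X) + 4 * e) := by ring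
  have hG4 : 4 * (X ^ 3 + c * X ^ 2 + d * X + e) ≠ 0 := mul_ne_zero (by norm_num) hG
  have hNR : (0 : ℝ) < N := by exact_mod_cast hN
  have hmain : ∀ {n : ℤ}, kpdEq μ n (4 * c * e) → n = N := fun h => by
    have := kpd_eq_mul hc' he'
    exact kpd_eq_unique (kpd_eq_cast this (by omega)) h
  have hce : kpdEq μ N (4 * c * e) := kpd_eq_cast (kpd_eq_mul hc' he') (by omega)
  by_cases hcase : kpdGe μ 1 X
  · by_cases hbig : ∃ w : ℤ, kpdGe μ w X ∧ (N : ℤ) ≤ 2 * w ∧ 1 ≤ w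
    · obtain ⟨w, hw, hNw, hw1⟩ := hbig
      have hnumv : kpdEq μ N ((X ^ 2 - d) ^ 2 - 4 * e * (2 * X + c)) := by
        rw [hnum]
        have h1 : kpdGe μ (N + 1) ((X ^ 2 - d) ^ 2 - 8 * (e * X)) := by
          refine kpd_ge_sub ?_ ?_
          · exact kpd_ge_mono (kpd_ge_sq (kpd_ge_sub (kpd_ge_mono (kpd_ge_sq hw) hNw) hd'))
              (by omega)
          · exact kpd_ge_mono (kpd_ge_mul h8 (kpd_ge_mul (kpd_ge_of_eq he') hw)) (by omega)
        have h2 := kpd_eq_add (kpd_eq_neg hce) h1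
        rw [show (X ^ 2 - d) ^ 2 - 8 * (e * X) - 4 * c * e
          = -(4 * c * e) + ((X ^ 2 - d) ^ 2 - 8 * (e * X)) by ring]
        exact h2
      have hdenv : kpdGe μ N (4 * (X ^ 3 + c * X ^ 2 + d * X + e)) := by
        rw [hden]
        refine kpd_ge_add ?_ (kpd_ge_add (kpd_ge_add ?_ ?_) ?_)
        · exact kpd_ge_mono (kpd_ge_mul (kpd_ge_of_eq hc') (kpd_ge_sq hw)) (by omega)
        · exact kpd_ge_mono (kpd_ge_mul h4 (kpd_ge_cube hw)) (by omega)
        · exact kpd_ge_mono (kpd_ge_mul h4 (kpd_ge_mul hd' hw)) (by omega)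
        · exact kpd_ge_mono (kpd_ge_mul h4 (kpd_ge_of_eq he')) (by omega)
      obtain ⟨g, hg⟩ : ∃ g, kpdEq μ g (4 * (X ^ 3 + c * X ^ 2 + d * X + e)) := ⟨_, kpd_eq_self hG4⟩
      have hgN : (N : ℤ) ≤ g := by
        rcases hdenv with h | h
        · exact absurd h hG4
        · exact h.trans hg.2.le
      have hX'v : kpdEq μ (N - g) X' := kpd_eq_of_mul (hX' ▸ hnumv) hg
      have ha : alpK μ N X = N / 2 := kpd_alp_big hw hNw
      have ha' : alpK μ N X' = 0 := kpd_alp_nonpos hX'v (by omega)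
      refine ⟨?_, ?_⟩
      · rw [ha, ha', min_eq_right]
        · ring
        · linarith
      · unfold upK
        rw [ha, ha', kpd_logmax_pos (kpd_ge_mono hw (by omega)), kpd_logmax_neg hX'v (by omega),
          kpd_log_nr hg]
        push_cast
        field_simp
        ring
    · have hX0 : X ≠ 0 := by
        intro h0
        exact hbig ⟨N, Or.inl h0, by omega, hNz⟩
      obtain ⟨w, hw⟩ : ∃ w, kpdEq μ w X := ⟨_, kpd_eq_self hX0⟩
      have hw1 : 1 ≤ w := by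
        rcases hcase with h | h
        · exact absurd h hX0
        · exact h.trans hw.2.le
      have hwN : 2 * w < N := by
        by_contra hcon
        exact hbig ⟨w, kpd_ge_of_eq hw, by omega, hw1⟩
      have hXd : kpdEq μ (2 * w) (X ^ 2 - d) := kpd_eq_sub (kpd_eq_sq hw) (kpd_ge_mono hd' (by omega))
      have hXd4 : kpdEq μ (4 * w) ((X ^ 2 - d) ^ 2) := kpd_eq_cast (kpd_eq_sq hXd) (by omega)
      have h8e : kpdGe μ (N + 1) (8 * (e * X)) :=
        kpd_ge_mono (kpd_ge_mul h8 (kpd_ge_mul (kpd_ge_of_eq he') (kpd_ge_of_eq hw))) (by omega)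
      have hdenv : kpdEq μ (2 * w) (4 * (X ^ 3 + c * X ^ 2 + d * X + e)) := by
        rw [hden]
        refine kpd_eq_add ?_ (kpd_ge_add (kpd_ge_add ?_ ?_) ?_)
        · exact kpd_eq_cast (kpd_eq_mul hc' (kpd_eq_sq hw)) (by omega)
        · exact kpd_ge_mono (kpd_ge_mul h4 (kpd_ge_cube (kpd_ge_of_eq hw))) (by omega)
        · exact kpd_ge_mono (kpd_ge_mul h4 (kpd_ge_mul hd' (kpd_ge_of_eq hw))) (by omega)
        · exact kpd_ge_mono (kpd_ge_mul h4 (kpd_ge_of_eq he')) (by omega)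
      have ha : alpK μ N X = w := kpd_alp_mid hw (by omega) (by omega)
      have hwR : (2 : ℝ) * w < N := by exact_mod_cast hwN
      have hw1R : (1 : ℝ) ≤ w := by exact_mod_cast hw1
      rcases lt_trichotomy (4 * w) N with h4w | h4w | h4w
      · have hnumv : kpdEq μ (4 * w) ((X ^ 2 - d) ^ 2 - 4 * e * (2 * X + c)) := by
          rw [hnum]
          exact kpd_eq_sub (kpd_eq_sub hXd4 (kpd_ge_mono h8e (by omega)))
            (kpd_ge_mono (kpd_ge_of_eq hce) (by omega))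
        have hX'v : kpdEq μ (2 * w) X' := kpd_eq_cast (kpd_eq_of_mul (hX' ▸ hnumv) hdenv) (by omega)
        have ha' : alpK μ N X' = ((2 * w : ℤ) : ℝ) := kpd_alp_mid hX'v (by omega) (by omega)
        have h4R : (4 : ℝ) * w < N := by exact_mod_cast h4w
        refine ⟨?_, ?_⟩
        · rw [ha, ha', min_eq_left (by linarith)]
          push_cast
          ring
        · unfold upK
          rw [ha, ha', kpd_logmax_pos (kpd_ge_mono (kpd_ge_of_eq hw) (by omega)),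
            kpd_logmax_pos (kpd_ge_mono (kpd_ge_of_eq hX'v) (by omega)), kpd_log_nr hdenv]
          push_cast
          field_simp
          ring
      · have hnumv : kpdGe μ N ((X ^ 2 - d) ^ 2 - 4 * e * (2 * X + c)) := by
          rw [hnum]
          exact kpd_ge_sub (kpd_ge_sub (kpd_ge_mono (kpd_ge_of_eq hXd4) (by omega))
            (kpd_ge_mono h8e (by omega))) (kpd_ge_of_eq hce)
        have hX'v : kpdGe μ (N - 2 * w) X' := kpd_ge_of_mul (hX' ▸ hnumv) hdenv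
        have ha' : alpK μ N X' = N / 2 := kpd_alp_big hX'v (by omega)
        have h4R : (4 : ℝ) * w = N := by exact_mod_cast h4w
        refine ⟨?_, ?_⟩
        · rw [ha, ha', min_eq_left (by linarith)]
          linarith
        · unfold upK
          rw [ha, ha', kpd_logmax_pos (kpd_ge_mono (kpd_ge_of_eq hw) (by omega)),
            kpd_logmax_pos (kpd_ge_mono hX'v (by omega)), kpd_log_nr hdenv, ← h4R]
          push_cast
          field_simp
          ring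
      · have hnumv : kpdEq μ N ((X ^ 2 - d) ^ 2 - 4 * e * (2 * X + c)) := by
          rw [hnum, show (X ^ 2 - d) ^ 2 - 8 * (e * X) - 4 * c * e
            = -(4 * c * e) + ((X ^ 2 - d) ^ 2 - 8 * (e * X)) by ring]
          exact kpd_eq_add (kpd_eq_neg hce) (kpd_ge_sub
            (kpd_ge_mono (kpd_ge_of_eq hXd4) (by omega)) h8e)
        have hX'v : kpdEq μ (N - 2 * w) X' := kpd_eq_of_mul (hX' ▸ hnumv) hdenv
        have ha' : alpK μ N X' = ((N - 2 * w : ℤ) : ℝ) := kpd_alp_mid hX'v (by omega) (by omega)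
        have h4R : (N : ℝ) < 4 * w := by exact_mod_cast h4w
        refine ⟨?_, ?_⟩
        · rw [ha, ha', min_eq_right (by linarith)]
          push_cast
          ring
        · unfold upK
          rw [ha, ha', kpd_logmax_pos (kpd_ge_mono (kpd_ge_of_eq hw) (by omega)),
            kpd_logmax_pos (kpd_ge_mono (kpd_ge_of_eq hX'v) (by omega)), kpd_log_nr hdenv]
          push_cast
          field_simp
          ring
  · have hX0 : X ≠ 0 := fun h0 => hcase (Or.inl h0)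
    obtain ⟨w, hw⟩ : ∃ w, kpdEq μ w X := ⟨_, kpd_eq_self hX0⟩
    have hw0 : w ≤ 0 := by
      by_contra hcon
      exact hcase (Or.inr (by rw [hw.2]; omega))
    have hXd : kpdEq μ (2 * w) (X ^ 2 - d) := kpd_eq_sub (kpd_eq_sq hw) (kpd_ge_mono hd' (by omega))
    have hXd4 : kpdEq μ (4 * w) ((X ^ 2 - d) ^ 2) := kpd_eq_cast (kpd_eq_sq hXd) (by omega)
    have hnumv : kpdEq μ (4 * w) ((X ^ 2 - d) ^ 2 - 4 * e * (2 * X + c)) := by
      rw [hnum]
      refine kpd_eq_sub (kpd_eq_sub hXd4 ?_) (kpd_ge_mono (kpd_ge_of_eq hce) (by omega))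
      exact kpd_ge_mono (kpd_ge_mul h8 (kpd_ge_mul (kpd_ge_of_eq he') (kpd_ge_of_eq hw))) (by omega)
    have hdenv : kpdGe μ (3 * w) (4 * (X ^ 3 + c * X ^ 2 + d * X + e)) := by
      rw [hden]
      refine kpd_ge_add ?_ (kpd_ge_add (kpd_ge_add ?_ ?_) ?_)
      · exact kpd_ge_mono (kpd_ge_mul (kpd_ge_of_eq hc') (kpd_ge_sq (kpd_ge_of_eq hw))) (by omega)
      · exact kpd_ge_mono (kpd_ge_mul h4 (kpd_ge_cube (kpd_ge_of_eq hw))) (by omega)
      · exact kpd_ge_mono (kpd_ge_mul h4 (kpd_ge_mul hd' (kpd_ge_of_eq hw))) (by omega)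
      · exact kpd_ge_mono (kpd_ge_mul h4 (kpd_ge_of_eq he')) (by omega)
    obtain ⟨g, hg⟩ : ∃ g, kpdEq μ g (4 * (X ^ 3 + c * X ^ 2 + d * X + e)) := ⟨_, kpd_eq_self hG4⟩
    have hgN : 3 * w ≤ g := by
      rcases hdenv with h | h
      · exact absurd h hG4
      · exact h.trans hg.2.le
    have hX'v : kpdEq μ (4 * w - g) X' := kpd_eq_of_mul (hX' ▸ hnumv) hg
    have ha : alpK μ N X = 0 := kpd_alp_nonpos hw hw0
    have ha' : alpK μ N X' = 0 := kpd_alp_nonpos hX'v (by omega)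
    refine ⟨?_, ?_⟩
    · rw [ha, ha', min_eq_left (by linarith)]
      ring
    · unfold upK
      rw [ha, ha', kpd_logmax_neg hw hw0, kpd_logmax_neg hX'v (by omega), kpd_log_nr hg]
      push_cast
      ring

end Pool.Agent.Helper42.LK
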